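import Mathlib

/-!
# The number of layers
-/

set_option autoImplicit false

namespace Pool.Agent.Helper39.SW

/-- The number of layers, with a lower bound `D ≤ p * L`. -/
theorem numbers_gen' {K0 β D : ℝ} (hK : 1 ≤ K0) (hβ : 0 < β) (hD : 0 ≤ D) : ∃ A : ℝ, 0 < A ∧
    ∀ p : ℝ, 0 < p → p ≤ 1 → ∃ L : ℕ, 1 ≤ L ∧
      K0 * L * Real.exp (-(p ^ 2 * L * β)) ≤ 1 ∧ D ≤ p * L ∧
      (L : ℝ) ≤ A / p ^ 2 * (1 + Real.log (1 / p)) := by
  obtain ⟨B, hB⟩ : ∃ B : ℝ, B = 1 + 3 / β + 4 * K0 / β ^ 2 + D := ⟨_, rfl⟩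
  have hb1 : 0 ≤ 3 / β := by positivity
  have hb2 : 0 ≤ 4 * K0 / β ^ 2 := by positivity
  have hB1 : 1 ≤ B := by rw [hB]; linarith
  have hBD : D ≤ B := by rw [hB]; linarith
  have hB3 : 3 ≤ β * B := by
    have h1 : 3 / β ≤ B := by rw [hB]; linarith
    rw [div_le_iff₀ hβ] at h1
    linarith
  have hB4 : 2 * K0 * B ≤ Real.exp (β * B) := by
    have h1 : 4 * K0 / β ^ 2 ≤ B := by rw [hB]; linarith
    rw [div_le_iff₀ (by positivity)] at h1
    have h2 : (β * B) ^ 2 / 2 ≤ Real.exp (β * B) := by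
      have := Real.quadratic_le_exp_of_nonneg (show 0 ≤ β * B by linarith)
      nlinarith
    refine le_trans ?_ h2
    have h3 : 0 ≤ B := by linarith
    nlinarith [mul_le_mul_of_nonneg_right h1 h3]
  refine ⟨2 * B, by linarith, ?_⟩
  intro p hp hp1
  obtain ⟨l, hl⟩ : ∃ l : ℝ, l = Real.log (1 / p) := ⟨_, rfl⟩
  rw [← hl]
  have hl0 : 0 ≤ l := by
    rw [hl]
    exact Real.log_nonneg (by rw [le_div_iff₀ hp]; linarith)
  have hpe : 1 / p = Real.exp l := by rw [hl, Real.exp_log (by positivity)]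
  have hp2 : (1 : ℝ) ≤ 1 / p ^ 2 := by
    rw [le_div_iff₀ (by positivity)]
    have : p ^ 2 ≤ 1 := pow_le_one₀ hp.le hp1
    linarith
  obtain ⟨x, hx⟩ : ∃ x : ℝ, x = B / p ^ 2 * (1 + l) := ⟨_, rfl⟩
  have hBp : B ≤ B / p ^ 2 := by
    have : B * 1 ≤ B * (1 / p ^ 2) := mul_le_mul_of_nonneg_left hp2 (by linarith)
    calc B = B * 1 := by ring
      _ ≤ B * (1 / p ^ 2) := this
      _ = B / p ^ 2 := by ring
  have hBx : B / p ^ 2 ≤ x := by
    rw [hx]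
    have h1 : 0 ≤ B / p ^ 2 := by linarith
    nlinarith
  have hx1 : 1 ≤ x := by linarith
  have hL1 : x ≤ (⌈x⌉₊ : ℝ) := Nat.le_ceil x
  have hL2 : ((⌈x⌉₊ : ℕ) : ℝ) ≤ 2 * x := by
    have := (Nat.ceil_lt_add_one (by linarith : (0 : ℝ) ≤ x)).le
    linarith
  refine ⟨⌈x⌉₊, Nat.one_le_iff_ne_zero.2 fun h => ?_, ?_, ?_, ?_⟩
  · rw [h] at hL1
    norm_num at hL1
    linarith
  · have h1 : β * B * (1 + l) ≤ p ^ 2 * (⌈x⌉₊ : ℝ) * β := by
      have h2 : p ^ 2 * x = B * (1 + l) := by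
        rw [hx]
        field_simp
      have h3 : p ^ 2 * x ≤ p ^ 2 * (⌈x⌉₊ : ℝ) := mul_le_mul_of_nonneg_left hL1 (by positivity)
      rw [h2] at h3
      calc β * B * (1 + l) = B * (1 + l) * β := by ring
        _ ≤ _ := mul_le_mul_of_nonneg_right h3 hβ.le
    have h4 : K0 * (⌈x⌉₊ : ℝ) ≤ Real.exp (β * B * (1 + l)) := by
      have h7 : 1 + l ≤ Real.exp l := by
        have := Real.add_one_le_exp l
        linarith
      have h8 : x = B * (1 / p) ^ 2 * (1 + l) := by rw [hx]; ring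
      calc K0 * (⌈x⌉₊ : ℝ) ≤ K0 * (2 * x) := mul_le_mul_of_nonneg_left hL2 (by linarith)
        _ = 2 * K0 * B * Real.exp l ^ 2 * (1 + l) := by rw [h8, hpe]; ring
        _ ≤ Real.exp (β * B) * Real.exp l ^ 2 * Real.exp l := by
            refine mul_le_mul ?_ h7 (by linarith) (by positivity)
            exact mul_le_mul_of_nonneg_right hB4 (by positivity)
        _ = Real.exp (β * B + 3 * l) := by
            rw [← Real.exp_nat_mul, ← Real.exp_add, ← Real.exp_add]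
            congr 1
            push_cast
            ring
        _ ≤ Real.exp (β * B * (1 + l)) := by
            refine Real.exp_le_exp.2 ?_
            nlinarith [mul_nonneg (sub_nonneg.2 hB3) hl0]
    calc K0 * (⌈x⌉₊ : ℝ) * Real.exp (-(p ^ 2 * (⌈x⌉₊ : ℝ) * β))
        ≤ Real.exp (β * B * (1 + l)) * Real.exp (-(β * B * (1 + l))) := by
          refine mul_le_mul h4 (Real.exp_le_exp.2 (neg_le_neg h1)) (Real.exp_pos _).le
            (Real.exp_pos _).le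
      _ = 1 := by rw [← Real.exp_add, add_neg_cancel, Real.exp_zero]
  · have h1 : B / p ^ 2 ≤ (⌈x⌉₊ : ℝ) := hBx.trans hL1
    have h2 : p * (B / p ^ 2) ≤ p * (⌈x⌉₊ : ℝ) := mul_le_mul_of_nonneg_left h1 hp.le
    have h3 : B ≤ p * (B / p ^ 2) := by
      have h4 : p * (B / p ^ 2) = B * (1 / p) := by
        field_simp
      rw [h4]
      have h5 : (1 : ℝ) ≤ 1 / p := by rw [le_div_iff₀ hp]; linarith
      nlinarith
    linarith
  · refine hL2.trans (le_of_eq ?_)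
    rw [hx]
    ring

/-- F7. The number of layers. -/
theorem numbers_gen {K0 β : ℝ} (hK : 1 ≤ K0) (hβ : 0 < β) : ∃ A : ℝ, 0 < A ∧
    ∀ p : ℝ, 0 < p → p ≤ 1 → ∃ L : ℕ, 1 ≤ L ∧
      K0 * L * Real.exp (-(p ^ 2 * L * β)) ≤ 1 ∧
      (L : ℝ) ≤ A / p ^ 2 * (1 + Real.log (1 / p)) := by
  obtain ⟨A, hA, h⟩ := numbers_gen' (D := 0) hK hβ le_rfl
  refine ⟨A, hA, fun p hp hp1 => ?_⟩
  obtain ⟨L, h1, h2, -, h3⟩ := h p hp hp1
  exact ⟨L, h1, h2, h3⟩

end Pool.Agent.Helper39.SW
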