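import Pool.Agent.Helper39.SR.Unit

/-!
# F1. Leveled exchange for one matroid (smaller class = heavier)
-/

set_option autoImplicit false

namespace Pool.Agent.Helper39.SW

open Pool.Agent.Helper68.SP Pool.Agent.Helper39.SR

variable {E : Type} [Fintype E] [DecidableEq E]

/-- Exchange over all classes, from maximal sets `P i`. -/
theorem exch_aux (M : Matroid E) (c : E → ℕ) {B S : Finset E} (hS : M.Indep (S : Set E))
    (P : ℕ → Finset E) (hPU : ∀ i, P i ⊆ (B.filter fun y => c y ≤ i) ∪ S.filter fun y => c y = i)
    (hP : ∀ i, M.Indep (P i : Set E))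
    (hspan : ∀ i, ((S.filter fun y => c y = i : Finset E) : Set E) ⊆ M.closure (P i : Set E)) :
    ∃ φ : E → E, (∀ e ∈ (S \ B).filter (fun e => e ∉ P (c e)), φ e ∈ B \ S ∧ c (φ e) ≤ c e ∧
      M.Indep ((insert e ((P (c e)).erase (φ e)) : Finset E) : Set E)) ∧
      Set.InjOn φ (((S \ B).filter (fun e => e ∉ P (c e)) : Finset E) : Set E) := by
  classical
  set D : Finset E := (S \ B).filter (fun e => e ∉ P (c e)) with hD
  set V : Finset E := (S \ B).filter (fun e => e ∈ P (c e)) with hV
  let T : {e // e ∈ D} → Finset E := fun e =>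
    (B \ S).filter fun y => c y ≤ c e.1 ∧
      M.Indep ((insert e.1 ((P (c e.1)).erase y) : Finset E) : Set E)
  have hall : ∀ A : Finset {e // e ∈ D}, A.card ≤ (A.biUnion T).card := by
    intro A
    set N : Finset E := A.biUnion T with hN
    have hNB : N ⊆ B \ S := by
      rw [hN, Finset.biUnion_subset]
      exact fun a _ => Finset.filter_subset _ _
    set Z : Finset E := ((B ∩ S) ∪ V) ∪ N with hZ
    set A' : Finset E := A.map ⟨Subtype.val, Subtype.val_injective⟩ with hA'
    have hA'D : A' ⊆ D := by
      intro e he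
      rw [hA', Finset.mem_map] at he
      obtain ⟨a, -, rfl⟩ := he
      exact a.2
    have hcl : ∀ e ∈ A', e ∈ M.closure (Z : Set E) := by
      intro e he
      have heD := Finset.mem_filter.1 (hA'D he)
      have heSB := Finset.mem_sdiff.1 heD.1
      have hecl : e ∈ M.closure (P (c e) : Set E) :=
        hspan (c e) (Finset.mem_coe.2 (Finset.mem_filter.2 ⟨heSB.1, rfl⟩))
      have heP : e ∉ (P (c e) : Set E) := fun h => heD.2 (Finset.mem_coe.1 h)
      have hC := (hP (c e)).fundCircuit_isCircuit hecl heP
      have h1 : e ∈ M.closure (M.fundCircuit e (P (c e)) \ {e}) :=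
        hC.mem_closure_sdiff_singleton_of_mem (M.mem_fundCircuit e _)
      refine M.closure_subset_closure ?_ h1
      rintro y ⟨hyC, hye⟩
      have hye' : y ≠ e := hye
      have hyP : y ∈ P (c e) := by
        have := M.fundCircuit_subset_insert e (P (c e) : Set E) hyC
        rcases Set.mem_insert_iff.1 this with h | h
        · exact absurd h hye'
        · exact Finset.mem_coe.1 h
      rw [Finset.mem_coe, hZ, Finset.mem_union, Finset.mem_union]
      rcases Finset.mem_union.1 (hPU _ hyP) with hyB | hyS
      · have hyB' := Finset.mem_filter.1 hyB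
        by_cases hyS : y ∈ S
        · exact Or.inl (Or.inl (Finset.mem_inter.2 ⟨hyB'.1, hyS⟩))
        · refine Or.inr ?_
          rw [hA', Finset.mem_map] at he
          obtain ⟨a, ha, hae⟩ := he
          rw [hN, Finset.mem_biUnion]
          have hae' : a.1 = e := hae
          refine ⟨a, ha, Finset.mem_filter.2 ⟨Finset.mem_sdiff.2 ⟨hyB'.1, hyS⟩, ?_, ?_⟩⟩
          · rw [hae']
            exact hyB'.2
          · rw [hae']
            have h2 := ((hP (c e)).mem_fundCircuit_iff hecl heP).1 hyC
            have h3 : ((insert e ((P (c e)).erase y) : Finset E) : Set E) =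
                insert e (P (c e) : Set E) \ {y} := by
              rw [Finset.coe_insert, Finset.coe_erase, Set.insert_sdiff_singleton_comm hye'.symm]
            rw [h3]
            exact h2
      · have hyS' := Finset.mem_filter.1 hyS
        by_cases hyB : y ∈ B
        · exact Or.inl (Or.inl (Finset.mem_inter.2 ⟨hyB, hyS'.1⟩))
        · refine Or.inl (Or.inr (Finset.mem_filter.2 ⟨Finset.mem_sdiff.2 ⟨hyS'.1, hyB⟩, ?_⟩))
          rw [hyS'.2]
          exact hyP
    have hVS : V ⊆ S := (Finset.filter_subset _ _).trans Finset.sdiff_subset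
    have hind : M.Indep ((((B ∩ S) ∪ V) ∪ A' : Finset E) : Set E) := by
      refine hS.subset (Finset.coe_subset.2 (Finset.union_subset (Finset.union_subset
        Finset.inter_subset_right hVS) ?_))
      exact hA'D.trans ((Finset.filter_subset _ _).trans Finset.sdiff_subset)
    have hYS : (((B ∩ S) ∪ V : Finset E) : Set E) ⊆ M.E :=
      (Finset.coe_subset.2 (Finset.union_subset Finset.inter_subset_right hVS)).trans
        hS.subset_ground
    have hle : (((B ∩ S) ∪ V) ∪ A').card ≤ Z.card := by
      by_cases hNE : (N : Set E) ⊆ M.E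
      · have hZE : (Z : Set E) ⊆ M.E := by
          rw [hZ, Finset.coe_union]
          exact Set.union_subset hYS hNE
        refine card_le_of_subset_closure M hind (T := Z) ?_
        intro e he
        rw [Finset.mem_coe, Finset.mem_union] at he
        rcases he with he | he
        · exact M.mem_closure_of_mem (Finset.mem_coe.2 (Finset.mem_union_left _ he)) hZE
        · exact hcl e he
      · exfalso
        apply hNE
        intro y hy
        rw [Finset.mem_coe, hN, Finset.mem_biUnion] at hy
        obtain ⟨a, -, hy⟩ := hy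
        have hy' := (Finset.mem_filter.1 hy).2.2
        by_contra hyE
        have haP := (Finset.mem_filter.1 a.2)
        have hyP : y ∉ P (c a.1) := fun h => hyE ((hP (c a.1)).subset_ground (Finset.mem_coe.2 h))
        rw [Finset.erase_eq_of_notMem hyP] at hy'
        have h5 : a.1 ∈ M.closure (P (c a.1) : Set E) :=
          hspan (c a.1) (Finset.mem_coe.2 (Finset.mem_filter.2
            ⟨(Finset.mem_sdiff.1 haP.1).1, rfl⟩))
        rw [Finset.coe_insert] at hy'
        have h6 := ((hP (c a.1)).insert_indep_iff_of_notMem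
          (fun h => haP.2 (Finset.mem_coe.1 h))).1 hy'
        exact h6.2 h5
    have hdisj : Disjoint ((B ∩ S) ∪ V) A' := by
      rw [Finset.disjoint_left]
      intro e he he'
      have hD' := Finset.mem_filter.1 (hA'D he')
      rcases Finset.mem_union.1 he with h | h
      · exact (Finset.mem_sdiff.1 hD'.1).2 (Finset.mem_inter.1 h).1
      · exact hD'.2 (Finset.mem_filter.1 h).2
    rw [Finset.card_union_of_disjoint hdisj] at hle
    have h4 : Z.card ≤ ((B ∩ S) ∪ V).card + N.card := Finset.card_union_le _ _
    have h5 : A'.card = A.card := Finset.card_map _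
    omega
  obtain ⟨f, hf1, hf2⟩ := (Finset.all_card_le_biUnion_card_iff_exists_injective T).1 hall
  refine ⟨fun e => if h : e ∈ D then f ⟨e, h⟩ else e, ?_, ?_⟩
  · intro e he
    have h0 := hf2 ⟨e, he⟩
    rw [Finset.mem_filter] at h0
    simp only [dif_pos he]
    exact h0
  · intro a ha b hb hab
    have ha' := Finset.mem_coe.1 ha
    have hb' := Finset.mem_coe.1 hb
    simp only [dif_pos ha', dif_pos hb'] at hab
    exact congrArg Subtype.val (hf1 hab)

/-- F1 (file ExchL.lean). Leveled exchange for one matroid; smaller class = heavier. -/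
theorem exch_level (M : Matroid E) (hE : M.E = Set.univ) (cls : E → ℕ) {B S : Finset E}
    (hB : M.Indep (B : Set E)) (hS : M.Indep (S : Set E)) :
    ∃ (V : Finset E) (φ : E → E), V ⊆ S \ B ∧
      (∀ i, M.Indep ((B.filter (fun e => cls e ≤ i) ∪ V.filter (fun e => cls e = i) :
        Finset E) : Set E)) ∧
      Set.InjOn φ (((S \ B) \ V : Finset E) : Set E) ∧
      ∀ e ∈ (S \ B) \ V, φ e ∈ B \ S ∧ cls (φ e) ≤ cls e ∧
        M.Indep ((insert e ((B.filter (fun x => cls x ≤ cls e) ∪
          V.filter (fun x => cls x = cls e)).erase (φ e)) : Finset E) : Set E) := by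
  classical
  have hP : ∀ i : ℕ, ∃ P : Finset E, B.filter (fun e => cls e ≤ i) ⊆ P ∧
      P ⊆ B.filter (fun e => cls e ≤ i) ∪ S.filter (fun y => cls y = i) ∧ M.Indep (P : Set E) ∧
      ((S.filter fun y => cls y = i : Finset E) : Set E) ⊆ M.closure (P : Set E) := by
    intro i
    have hBi : M.Indep ((B.filter (fun e => cls e ≤ i) : Finset E) : Set E) :=
      hB.subset (Finset.coe_subset.2 (Finset.filter_subset _ _))
    obtain ⟨J, hJ, hBJ⟩ := hBi.subset_isBasis_of_subset
      (X := ((B.filter (fun e => cls e ≤ i) ∪ S.filter (fun y => cls y = i) : Finset E) : Set E))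
      (Finset.coe_subset.2 Finset.subset_union_left)
      (by rw [hE]; exact Set.subset_univ _)
    lift J to Finset E using Set.toFinite J
    refine ⟨J, Finset.coe_subset.1 hBJ, Finset.coe_subset.1 hJ.subset, hJ.indep, ?_⟩
    exact (Finset.coe_subset.2 Finset.subset_union_right).trans hJ.subset_closure
  choose P hBP hPU hPi hPcl using hP
  obtain ⟨φ, hφ1, hφ2⟩ := exch_aux M cls (B := B) hS P hPU hPi hPcl
  set V : Finset E := (S \ B).filter (fun e => e ∈ P (cls e)) with hV
  have hPeq : ∀ i, B.filter (fun e => cls e ≤ i) ∪ V.filter (fun e => cls e = i) = P i := by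
    intro i
    ext x
    rw [Finset.mem_union]
    constructor
    · rintro (h | h)
      · exact hBP i h
      · rw [hV, Finset.mem_filter, Finset.mem_filter] at h
        obtain ⟨⟨-, h1⟩, h2⟩ := h
        rw [h2] at h1
        exact h1
    · intro h
      rcases Finset.mem_union.1 (hPU i h) with h1 | h1
      · exact Or.inl h1
      · obtain ⟨h2, h3⟩ := Finset.mem_filter.1 h1
        by_cases hxB : x ∈ B
        · exact Or.inl (Finset.mem_filter.2 ⟨hxB, h3.le⟩)
        · refine Or.inr (Finset.mem_filter.2 ⟨?_, h3⟩)
          rw [hV, Finset.mem_filter]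
          refine ⟨Finset.mem_sdiff.2 ⟨h2, hxB⟩, ?_⟩
          rw [h3]
          exact h
  have hD : (S \ B) \ V = (S \ B).filter (fun e => e ∉ P (cls e)) := by
    ext x
    rw [hV, Finset.mem_sdiff, Finset.mem_filter, Finset.mem_filter]
    tauto
  refine ⟨V, φ, Finset.filter_subset _ _, ?_, ?_, ?_⟩
  · intro i
    rw [hPeq i]
    exact hPi i
  · rw [hD]
    exact hφ2
  · intro e he
    rw [hD] at he
    obtain ⟨h1, h2, h3⟩ := hφ1 e he
    refine ⟨h1, h2, ?_⟩
    rw [hPeq (cls e)]
    exact h3

end Pool.Agent.Helper39.SW
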