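import Pool.Agent.Helper39.SW.Defs
import Pool.Agent.Helper39.SW.ExchL

/-!
# The charging lemma
-/

set_option autoImplicit false

namespace Pool.Agent.Helper39.SW

variable {E : Type} [Fintype E] [DecidableEq E]

/-- F2 (file Charge.lean). -/
theorem augment_w {k : ℕ} (hk : 1 ≤ k) (M : Fin k → Matroid E)
    (hE : ∀ i, (M i).E = Set.univ) (cls : E → ℕ) (g v : ℕ → ℝ)
    (hg : ∀ i, ∑ e ∈ Finset.univ.filter (fun e => i < cls e), g (cls e) < g i)
    (hg0 : ∀ i, 0 ≤ g i)
    (hv0 : ∀ i, 0 ≤ v i) (hv : ∀ i j, i < j → 2 * v j ≤ v i) {B S : Finset E}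
    (hB : ∀ i, (M i).Indep (B : Set E)) (hS : ∀ i, (M i).Indep (S : Set E))
    (hno : ∀ X ⊆ S \ B, X.Nonempty → ¬ AugG M (fun e => g (cls e)) B X) :
    ∑ e ∈ S, v (cls e) ≤ (((k : ℝ) + 1) / 2) * ∑ e ∈ B, v (cls e) := by
  classical
  have hkR : (1 : ℝ) ≤ k := by exact_mod_cast hk
  have hex := fun l => exch_level (M l) (hE l) cls (hB l) (hS l)
  choose V φ hV hVi hinj hφ using hex
  obtain ⟨c, hc⟩ : ∃ c : E → ℕ, ∀ e, c e = (Finset.univ.filter fun l => e ∉ V l).card :=
    ⟨_, fun _ => rfl⟩
  have hmem : ∀ (e : E) (l : Fin k), e ∉ V l → c e = 1 → ∀ l', l' ≠ l → e ∈ V l' := by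
    intro e l hel hce l' hl'
    rw [hc, Finset.card_eq_one] at hce
    obtain ⟨l0, hl0⟩ := hce
    by_contra hcon
    have h1 : l ∈ Finset.univ.filter fun l => e ∉ V l :=
      Finset.mem_filter.2 ⟨Finset.mem_univ l, hel⟩
    have h2 : l' ∈ Finset.univ.filter fun l => e ∉ V l :=
      Finset.mem_filter.2 ⟨Finset.mem_univ l', hcon⟩
    rw [hl0, Finset.mem_singleton] at h1 h2
    exact hl' (h2.trans h1.symm)
  have hpot : ∀ i, ∑ e ∈ B, g (cls e) <
      ∑ e ∈ B.filter (fun e => cls e ≤ i), g (cls e) + g i := by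
    intro i
    rw [← Finset.sum_filter_add_sum_filter_not B (fun e => cls e ≤ i)]
    have h1 : ∑ e ∈ B.filter (fun e => ¬ cls e ≤ i), g (cls e) ≤
        ∑ e ∈ Finset.univ.filter (fun e => i < cls e), g (cls e) := by
      refine Finset.sum_le_sum_of_subset_of_nonneg ?_ fun e _ _ => hg0 _
      intro e he
      rw [Finset.mem_filter] at he ⊢
      exact ⟨Finset.mem_univ e, not_le.1 he.2⟩
    have h2 := hg i
    linarith
  have hc1 : ∀ e ∈ S \ B, 1 ≤ c e := by
    intro e he
    by_contra hcon
    have h0 : c e = 0 := by omega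
    rw [hc, Finset.card_eq_zero] at h0
    have hall : ∀ l, e ∈ V l := by
      intro l
      by_contra hl
      have h2 : l ∈ Finset.univ.filter fun l => e ∉ V l :=
        Finset.mem_filter.2 ⟨Finset.mem_univ l, hl⟩
      rw [h0] at h2
      exact absurd h2 (Finset.notMem_empty l)
    have heB := (Finset.mem_sdiff.1 he).2
    refine hno {e} (Finset.singleton_subset_iff.2 he) (Finset.singleton_nonempty e)
      ⟨by simp, insert e (B.filter (fun x => cls x ≤ cls e)), ?_, ?_, ?_⟩
    · intro l
      refine (hVi l (cls e)).subset (Finset.coe_subset.2 ?_)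
      refine Finset.insert_subset ?_ Finset.subset_union_left
      exact Finset.mem_union_right _ (Finset.mem_filter.2 ⟨hall l, rfl⟩)
    · intro x hx
      rw [Finset.mem_insert, Finset.mem_filter] at hx
      rw [Finset.mem_union, Finset.mem_singleton]
      tauto
    · rw [Finset.sum_insert (fun h => heB (Finset.mem_filter.1 h).1)]
      have := hpot (cls e)
      linarith
  have hpair : ∀ y, ∀ l l', ∀ e ∈ (S \ B) \ V l, ∀ e' ∈ (S \ B) \ V l', φ l e = y →
      φ l' e' = y → cls e = cls y → cls e' = cls y → c e = 1 → c e' = 1 → l = l' := by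
    intro y l l' e he e' he' h1 h2 h3 h4 h5 h6
    by_contra hne
    obtain ⟨heSB, heV⟩ := Finset.mem_sdiff.1 he
    obtain ⟨heSB', heV'⟩ := Finset.mem_sdiff.1 he'
    have heB := (Finset.mem_sdiff.1 heSB).2
    have heB' := (Finset.mem_sdiff.1 heSB').2
    have hee : e ≠ e' := by
      rintro rfl
      exact heV' (hmem e l heV h5 l' (Ne.symm hne))
    have hyBS : y ∈ B \ S := h1 ▸ (hφ l e he).1
    have hyB := (Finset.mem_sdiff.1 hyBS).1
    have hyS := (Finset.mem_sdiff.1 hyBS).2
    have hye : e ≠ y := fun h => heB (h ▸ hyB)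
    have hye' : e' ≠ y := fun h => heB' (h ▸ hyB)
    have hI1 := (hφ l e he).2.2
    rw [h1, h3] at hI1
    have hI2 := (hφ l' e' he').2.2
    rw [h2, h4] at hI2
    have hyF : y ∈ B.filter (fun x => cls x ≤ cls y) := Finset.mem_filter.2 ⟨hyB, le_rfl⟩
    have heF : e ∉ insert e' ((B.filter (fun x => cls x ≤ cls y)).erase y) := by
      intro h
      rcases Finset.mem_insert.1 h with h | h
      · exact hee h
      · exact heB (Finset.mem_filter.1 (Finset.mem_of_mem_erase h)).1
    have heF' : e' ∉ (B.filter (fun x => cls x ≤ cls y)).erase y := fun h =>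
      heB' (Finset.mem_filter.1 (Finset.mem_of_mem_erase h)).1
    refine hno {e, e'} ?_ ⟨e, by simp⟩ ⟨Finset.card_le_two,
      insert e (insert e' ((B.filter (fun x => cls x ≤ cls y)).erase y)), ?_, ?_, ?_⟩
    · intro x hx
      rw [Finset.mem_insert, Finset.mem_singleton] at hx
      rcases hx with rfl | rfl
      · exact heSB
      · exact heSB'
    · intro j
      by_cases hj1 : j = l
      · subst hj1
        refine hI1.subset (Finset.coe_subset.2 ?_)
        refine Finset.insert_subset_insert e (Finset.insert_subset ?_ ?_)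
        · refine Finset.mem_erase.2 ⟨hye', Finset.mem_union_right _ ?_⟩
          exact Finset.mem_filter.2 ⟨hmem e' l' heV' h6 j hne, h4⟩
        · exact Finset.erase_subset_erase y Finset.subset_union_left
      · by_cases hj2 : j = l'
        · subst hj2
          refine hI2.subset (Finset.coe_subset.2 ?_)
          rw [Finset.insert_comm]
          refine Finset.insert_subset_insert e' (Finset.insert_subset ?_ ?_)
          · refine Finset.mem_erase.2 ⟨hye, Finset.mem_union_right _ ?_⟩
            exact Finset.mem_filter.2 ⟨hmem e l heV h5 j (Ne.symm hne), h3⟩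
          · exact Finset.erase_subset_erase y Finset.subset_union_left
        · refine (hVi j (cls y)).subset (Finset.coe_subset.2 ?_)
          refine Finset.insert_subset ?_ (Finset.insert_subset ?_ ?_)
          · exact Finset.mem_union_right _ (Finset.mem_filter.2 ⟨hmem e l heV h5 j hj1, h3⟩)
          · exact Finset.mem_union_right _ (Finset.mem_filter.2 ⟨hmem e' l' heV' h6 j hj2, h4⟩)
          · exact (Finset.erase_subset _ _).trans Finset.subset_union_left
    · intro x hx
      rw [Finset.mem_insert, Finset.mem_insert, Finset.mem_erase, Finset.mem_filter] at hx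
      rw [Finset.mem_union, Finset.mem_insert, Finset.mem_singleton]
      tauto
    · rw [Finset.sum_insert heF, Finset.sum_insert heF', h3, h4]
      have h7 := Finset.add_sum_erase (B.filter (fun x => cls x ≤ cls y))
        (fun x => g (cls x)) hyF
      have h8 := hpot (cls y)
      linarith
  -- charging
  have hcharge : ∑ e ∈ S \ B, v (cls e) =
      ∑ l : Fin k, ∑ e ∈ (S \ B) \ V l, v (cls e) / c e := by
    have h1 : ∀ e ∈ S \ B, v (cls e) = ∑ l : Fin k, if e ∉ V l then v (cls e) / c e else 0 := by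
      intro e he
      rw [← Finset.sum_filter, Finset.sum_const, nsmul_eq_mul, ← hc e]
      have h2 : (0 : ℝ) < c e := by exact_mod_cast hc1 e he
      field_simp
    rw [Finset.sum_congr rfl h1, Finset.sum_comm]
    refine Finset.sum_congr rfl fun l _ => ?_
    rw [← Finset.sum_filter]
    refine Finset.sum_congr ?_ fun _ _ => rfl
    ext e
    simp only [Finset.mem_filter, Finset.mem_sdiff]
  have hfib : ∀ l : Fin k, ∑ e ∈ (S \ B) \ V l, v (cls e) / c e =
      ∑ y ∈ B \ S, ∑ e ∈ ((S \ B) \ V l).filter (fun e => φ l e = y), v (cls e) / c e :=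
    fun l => (Finset.sum_fiberwise_of_maps_to (fun e he => (hφ l e he).1) _).symm
  have hy : ∀ y ∈ B \ S, ∑ l : Fin k, ∑ e ∈ ((S \ B) \ V l).filter (fun e => φ l e = y),
      v (cls e) / c e ≤ (((k : ℝ) + 1) / 2) * v (cls y) := by
    intro y _
    have hnn : 0 ≤ v (cls y) := hv0 _
    let full : Fin k → Prop := fun l => ∃ e ∈ (S \ B) \ V l, φ l e = y ∧ cls e = cls y ∧ c e = 1
    have h1 : ∀ l, ∑ e ∈ ((S \ B) \ V l).filter (fun e => φ l e = y), v (cls e) / c e ≤
        v (cls y) / 2 + if full l then v (cls y) / 2 else 0 := by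
      intro l
      rcases (((S \ B) \ V l).filter (fun e => φ l e = y)).eq_empty_or_nonempty with h | ⟨e, he⟩
      · rw [h, Finset.sum_empty]
        split_ifs <;> linarith
      · have hsing : ((S \ B) \ V l).filter (fun e => φ l e = y) = {e} := by
          refine Finset.eq_singleton_iff_unique_mem.2 ⟨he, fun e' he' => ?_⟩
          obtain ⟨h2, h3⟩ := Finset.mem_filter.1 he
          obtain ⟨h4, h5⟩ := Finset.mem_filter.1 he'
          exact hinj l (Finset.mem_coe.2 h4) (Finset.mem_coe.2 h2) (h5.trans h3.symm)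
        rw [hsing, Finset.sum_singleton]
        obtain ⟨h2, h3⟩ := Finset.mem_filter.1 he
        have h4 : cls y ≤ cls e := h3 ▸ (hφ l e h2).2.1
        have h5 : 1 ≤ c e := hc1 e (Finset.mem_sdiff.1 h2).1
        have h5R : (1 : ℝ) ≤ c e := by exact_mod_cast h5
        have h6 : v (cls e) ≤ v (cls y) := by
          rcases h4.eq_or_lt with h | h
          · rw [h]
          · have := hv _ _ h
            have := hv0 (cls e)
            linarith
        by_cases hf : full l
        · rw [if_pos hf]
          calc v (cls e) / c e ≤ v (cls e) := div_le_self (hv0 _) h5R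
            _ ≤ _ := by linarith
        · rw [if_neg hf, add_zero]
          by_cases h7 : cls e = cls y
          · have h8 : c e ≠ 1 := fun h => hf ⟨e, h2, h3, h7, h⟩
            have h9 : 2 ≤ c e := by omega
            have h10 : (2 : ℝ) ≤ c e := by exact_mod_cast h9
            calc v (cls e) / c e ≤ v (cls e) / 2 :=
                  div_le_div_of_nonneg_left (hv0 _) two_pos h10
              _ ≤ v (cls y) / 2 := by linarith
          · have h8 : cls y < cls e := lt_of_le_of_ne h4 (Ne.symm h7)
            have h9 := hv _ _ h8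
            calc v (cls e) / c e ≤ v (cls e) := div_le_self (hv0 _) h5R
              _ ≤ v (cls y) / 2 := by linarith
    refine (Finset.sum_le_sum fun l _ => h1 l).trans ?_
    rw [Finset.sum_add_distrib, Finset.sum_const, Finset.card_univ, Fintype.card_fin,
      nsmul_eq_mul, ← Finset.sum_filter, Finset.sum_const, nsmul_eq_mul]
    have h2 : (Finset.univ.filter full).card ≤ 1 := by
      rw [Finset.card_le_one]
      intro l hl l' hl'
      obtain ⟨-, e, he, h3, h4, h5⟩ := Finset.mem_filter.1 hl
      obtain ⟨-, e', he', h3', h4', h5'⟩ := Finset.mem_filter.1 hl'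
      exact hpair y l l' e he e' he' h3 h3' h4 h4' h5 h5'
    have h3 : ((Finset.univ.filter full).card : ℝ) ≤ 1 := by exact_mod_cast h2
    have h4 : ((Finset.univ.filter full).card : ℝ) * (v (cls y) / 2) ≤ 1 * (v (cls y) / 2) :=
      mul_le_mul_of_nonneg_right h3 (by linarith)
    linarith
  have hmain : ∑ e ∈ S \ B, v (cls e) ≤ (((k : ℝ) + 1) / 2) * ∑ y ∈ B \ S, v (cls y) := by
    rw [hcharge, Finset.sum_congr rfl fun l _ => hfib l, Finset.sum_comm, Finset.mul_sum]
    exact Finset.sum_le_sum hy
  have h1 : ∑ e ∈ S \ B, v (cls e) + ∑ e ∈ S ∩ B, v (cls e) = ∑ e ∈ S, v (cls e) := by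
    have := Finset.sum_sdiff (f := fun e => v (cls e)) (Finset.inter_subset_left (s₁ := S) (s₂ := B))
    rwa [Finset.sdiff_inter_self_left] at this
  have h2 : ∑ e ∈ B \ S, v (cls e) + ∑ e ∈ S ∩ B, v (cls e) = ∑ e ∈ B, v (cls e) := by
    have := Finset.sum_sdiff (f := fun e => v (cls e)) (Finset.inter_subset_right (s₁ := S) (s₂ := B))
    rwa [Finset.sdiff_inter_self_right] at this
  have h3 : 0 ≤ ∑ e ∈ S ∩ B, v (cls e) := Finset.sum_nonneg fun e _ => hv0 _
  rw [← h1, ← h2, mul_add]
  have h4 : 1 * ∑ e ∈ S ∩ B, v (cls e) ≤ (((k : ℝ) + 1) / 2) * ∑ e ∈ S ∩ B, v (cls e) :=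
    mul_le_mul_of_nonneg_right (by linarith) h3
  linarith

end Pool.Agent.Helper39.SW
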