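import Pool.Agent.Helper39.SR.Unit

/-!
# Weighted augmentations
-/

set_option autoImplicit false

namespace Pool.Agent.Helper39.SW

variable {E : Type} [Fintype E] [DecidableEq E]

/-- `X` augments `B` for the weights `u`. -/
def AugG {k : ℕ} (M : Fin k → Matroid E) (u : E → ℝ) (B X : Finset E) : Prop :=
  X.card ≤ 2 ∧ ∃ B' : Finset E, (∀ i, (M i).Indep (B' : Set E)) ∧ B' ⊆ B ∪ X ∧
    ∑ e ∈ B, u e < ∑ e ∈ B', u e

end Pool.Agent.Helper39.SW
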