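import Mathlib

/-!
# 64 grids of ratio at least two

The weights are rounded down to one of 64 shifted geometric grids of ratio `(647 / 640) ^ 64 ≥ 2`; on average over the
shifts the rounded weight is at least `5 / 7` of the weight.
-/

set_option autoImplicit false

namespace Pool.Agent.Helper39.SW

/-- the ratio -/
private noncomputable def q0 : ℝ := 647 / 640

private theorem q0_one : 1 < q0 := by
  unfold q0
  norm_num

private theorem q0_pos : 0 < q0 := by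
  unfold q0
  norm_num

private theorem q0_64 : 2 ≤ q0 ^ 64 := by
  unfold q0
  norm_num

/-- the geometric sum -/
private theorem sum_q0 : (320 / 7 : ℝ) * q0 ≤ ∑ r : Fin 64, 1 / q0 ^ (r : ℕ) := by
  have h1 : ∑ r : Fin 64, 1 / q0 ^ (r : ℕ) = ∑ j ∈ Finset.range 64, (640 / 647 : ℝ) ^ j := by
    rw [Finset.sum_range]
    refine Finset.sum_congr rfl fun r _ => ?_
    unfold q0
    rw [← one_div_pow]
    norm_num
  rw [h1, geom_sum_eq (by norm_num)]
  unfold q0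
  norm_num

/-- the grid values -/
private noncomputable def vv (s : ℝ) (N0 : ℕ) (σ i : ℕ) : ℝ := s * q0 ^ (σ + 64 * N0) / q0 ^ (64 * i)

private theorem vv_pos {s : ℝ} (hs : 0 < s) (N0 σ i : ℕ) : 0 < vv s N0 σ i := by
  have := q0_pos
  unfold vv
  positivity

private theorem vv_half {s : ℝ} (hs : 0 < s) (N0 σ : ℕ) {i j : ℕ} (hij : i < j) :
    2 * vv s N0 σ j ≤ vv s N0 σ i := by
  have hq := q0_pos
  unfold vv
  rw [le_div_iff₀ (by positivity)]
  have h1 : q0 ^ (64 * j) = q0 ^ (64 * i) * (q0 ^ 64) ^ (j - i) := by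
    rw [← pow_mul, ← pow_add]
    congr 1
    omega
  have h2 : (2 : ℝ) ≤ (q0 ^ 64) ^ (j - i) := by
    calc (2 : ℝ) ≤ q0 ^ 64 := q0_64
      _ = (q0 ^ 64) ^ 1 := (pow_one _).symm
      _ ≤ (q0 ^ 64) ^ (j - i) := pow_le_pow_right₀ (by linarith [q0_64]) (by omega)
  rw [h1]
  have h3 : 2 * (s * q0 ^ (σ + 64 * N0) / (q0 ^ (64 * i) * (q0 ^ 64) ^ (j - i))) * q0 ^ (64 * i) =
      s * q0 ^ (σ + 64 * N0) * (2 / (q0 ^ 64) ^ (j - i)) := by
    field_simp
  rw [h3]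
  have h4 : 2 / (q0 ^ 64) ^ (j - i) ≤ 1 := by
    rw [div_le_one (by positivity)]
    exact h2
  calc s * q0 ^ (σ + 64 * N0) * (2 / (q0 ^ 64) ^ (j - i)) ≤ s * q0 ^ (σ + 64 * N0) * 1 :=
        mul_le_mul_of_nonneg_left h4 (by positivity)
    _ = s * q0 ^ (σ + 64 * N0) := mul_one _

private theorem vv_anti {s : ℝ} (hs : 0 < s) (N0 σ : ℕ) {i j : ℕ} (hij : i ≤ j) :
    vv s N0 σ j ≤ vv s N0 σ i := by
  rcases hij.eq_or_lt with rfl | h
  · exact le_rfl
  · have h1 := vv_half hs N0 σ h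
    have h2 := vv_pos hs N0 σ j
    linarith

/-- the value reached -/
private theorem vv_hit {s : ℝ} (N0 : ℕ) (σ : Fin 64) {n : ℕ} (hn : n ≤ 64 * N0) :
    ∃ i, vv s N0 σ i = s * q0 ^ n * (1 / q0 ^ ((Fin.ofNat 64 n - σ : Fin 64) : ℕ)) := by
  have hq := q0_pos
  have hr : (((Fin.ofNat 64 n - σ : Fin 64) : ℕ)) = (64 - (σ : ℕ) + n % 64) % 64 := by
    rw [Fin.sub_def]
    simp [Fin.ofNat]
  have hσ : (σ : ℕ) < 64 := σ.2
  set r : ℕ := ((Fin.ofNat 64 n - σ : Fin 64) : ℕ) with hrdef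
  refine ⟨((σ : ℕ) + 64 * N0 + r - n) / 64, ?_⟩
  have h1 : 64 * (((σ : ℕ) + 64 * N0 + r - n) / 64) + n = (σ : ℕ) + 64 * N0 + r := by
    rw [hr]
    omega
  unfold vv
  have h2 : q0 ^ (64 * (((σ : ℕ) + 64 * N0 + r - n) / 64)) * q0 ^ n =
      q0 ^ ((σ : ℕ) + 64 * N0) * q0 ^ r := by
    rw [← pow_add, ← pow_add, h1]
  rw [div_eq_iff (by positivity)]
  have h3 : s * q0 ^ n * (1 / q0 ^ r) * q0 ^ (64 * (((σ : ℕ) + 64 * N0 + r - n) / 64)) =
      s * (1 / q0 ^ r) * (q0 ^ (64 * (((σ : ℕ) + 64 * N0 + r - n) / 64)) * q0 ^ n) := by ring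
  rw [h3, h2]
  field_simp

/-- F6. 64 grids of ratio at least two; average rounding 5/7. -/
theorem grids {E : Type} [Fintype E] [DecidableEq E] (w : E → ℝ) (A : Finset E) {s Γ : ℝ}
    (hs : 0 < s) (hA : ∀ e ∈ A, s ≤ w e ∧ w e ≤ Γ * s) :
    ∃ (cls : Fin 64 → E → ℕ) (g : ℕ → ℝ) (v : Fin 64 → ℕ → ℝ),
      (∀ σ i, ∑ e ∈ Finset.univ.filter (fun e => i < cls σ e), g (cls σ e) < g i) ∧
      (∀ i, 0 ≤ g i) ∧ (∀ σ i, 0 ≤ v σ i) ∧ (∀ σ i j, i < j → 2 * v σ j ≤ v σ i) ∧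
      (∀ σ, ∀ e ∈ A, v σ (cls σ e) ≤ w e) ∧
      ∀ e ∈ A, 64 * (5 / 7) * w e ≤ ∑ σ, v σ (cls σ e) := by
  classical
  have hq := q0_pos
  obtain ⟨N0, hN0⟩ := pow_unbounded_of_one_lt Γ q0_one
  set v : Fin 64 → ℕ → ℝ := fun σ i => vv s N0 σ i with hv
  set cls : Fin 64 → E → ℕ := fun σ e => if h : ∃ i, v σ i ≤ w e then Nat.find h else 0 with hcls
  set N : ℝ := (Fintype.card E : ℝ) + 2 with hN
  have hNpos : 0 < N := by positivity
  -- the level of a weight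
  have hlev : ∀ e ∈ A, ∃ n : ℕ, n ≤ 64 * N0 ∧ s * q0 ^ n ≤ w e ∧ w e < s * q0 ^ (n + 1) := by
    intro e he
    obtain ⟨h1, h2⟩ := hA e he
    have h3 : 1 ≤ w e / s := by rw [le_div_iff₀ hs]; linarith
    obtain ⟨n, hn1, hn2⟩ := exists_nat_pow_near h3 q0_one
    rw [le_div_iff₀ hs] at hn1
    rw [div_lt_iff₀ hs] at hn2
    refine ⟨n, ?_, by linarith, by linarith⟩
    have h4 : q0 ^ n < q0 ^ N0 := by
      have h5 : q0 ^ n * s < q0 ^ N0 * s := by
        calc q0 ^ n * s ≤ w e := hn1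
          _ ≤ Γ * s := h2
          _ < q0 ^ N0 * s := mul_lt_mul_of_pos_right hN0 hs
      exact lt_of_mul_lt_mul_right h5 hs.le
    have h6 : n < N0 := (pow_lt_pow_iff_right₀ q0_one).1 h4
    omega
  have hge : ∀ e ∈ A, ∀ n : ℕ, n ≤ 64 * N0 → s * q0 ^ n ≤ w e → ∀ σ : Fin 64,
      v σ (cls σ e) ≤ w e ∧
        s * q0 ^ n * (1 / q0 ^ ((Fin.ofNat 64 n - σ : Fin 64) : ℕ)) ≤ v σ (cls σ e) := by
    intro e he n hn1 hn2 σ
    obtain ⟨i0, hi0⟩ := vv_hit (s := s) N0 σ hn1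
    have h1 : vv s N0 σ i0 ≤ w e := by
      rw [hi0]
      refine le_trans ?_ hn2
      have h2 : 1 / q0 ^ ((Fin.ofNat 64 n - σ : Fin 64) : ℕ) ≤ 1 := by
        rw [div_le_one (by positivity)]
        exact one_le_pow₀ q0_one.le
      calc s * q0 ^ n * (1 / q0 ^ ((Fin.ofNat 64 n - σ : Fin 64) : ℕ)) ≤ s * q0 ^ n * 1 :=
            mul_le_mul_of_nonneg_left h2 (by positivity)
        _ = s * q0 ^ n := mul_one _
    have hex : ∃ i, v σ i ≤ w e := ⟨i0, h1⟩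
    have hc : cls σ e = Nat.find hex := by
      simp only [hcls]
      rw [dif_pos hex]
    refine ⟨?_, ?_⟩
    · rw [hc]
      exact Nat.find_spec hex
    · rw [hc, ← hi0]
      exact vv_anti hs N0 σ (Nat.find_min' hex h1)
  refine ⟨cls, fun i => (1 / N) ^ i, v, ?_, ?_, ?_, ?_, ?_, ?_⟩
  · intro σ i
    have h1 : ∑ e ∈ Finset.univ.filter (fun e => i < cls σ e), (1 / N) ^ (cls σ e) ≤
        ∑ _e ∈ (Finset.univ : Finset E).filter (fun e => i < cls σ e), (1 / N) ^ (i + 1) := by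
      refine Finset.sum_le_sum fun e he => ?_
      have h2 := (Finset.mem_filter.1 he).2
      refine pow_le_pow_of_le_one (by positivity) ?_ h2
      rw [div_le_one hNpos, hN]
      have : (0 : ℝ) ≤ (Fintype.card E : ℝ) := Nat.cast_nonneg _
      linarith
    refine h1.trans_lt ?_
    rw [Finset.sum_const, nsmul_eq_mul, pow_succ]
    have h3 : (((Finset.univ : Finset E).filter (fun e => i < cls σ e)).card : ℝ) ≤
        (Fintype.card E : ℝ) := by
      exact_mod_cast Finset.card_le_univ _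
    have h4 : (((Finset.univ : Finset E).filter (fun e => i < cls σ e)).card : ℝ) * (1 / N) < 1 := by
      rw [mul_one_div, div_lt_one hNpos, hN]
      linarith
    have h5 : (0 : ℝ) < (1 / N) ^ i := by positivity
    calc (((Finset.univ : Finset E).filter (fun e => i < cls σ e)).card : ℝ) *
          ((1 / N) ^ i * (1 / N)) =
        (1 / N) ^ i * ((((Finset.univ : Finset E).filter (fun e => i < cls σ e)).card : ℝ) *
          (1 / N)) := by ring
      _ < (1 / N) ^ i * 1 := mul_lt_mul_of_pos_left h4 h5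
      _ = (1 / N) ^ i := mul_one _
  · intro i
    positivity
  · intro σ i
    exact (vv_pos hs N0 σ i).le
  · intro σ i j hij
    exact vv_half hs N0 σ hij
  · intro σ e he
    obtain ⟨n, hn1, hn2, -⟩ := hlev e he
    exact (hge e he n hn1 hn2 σ).1
  · intro e he
    obtain ⟨n, hn1, hn2, hn3⟩ := hlev e he
    have h1 : ∑ σ : Fin 64, s * q0 ^ n * (1 / q0 ^ ((Fin.ofNat 64 n - σ : Fin 64) : ℕ)) ≤
        ∑ σ, v σ (cls σ e) :=
      Finset.sum_le_sum fun σ _ => (hge e he n hn1 hn2 σ).2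
    refine le_trans ?_ h1
    rw [← Finset.mul_sum]
    have h2 : ∑ σ : Fin 64, 1 / q0 ^ ((Fin.ofNat 64 n - σ : Fin 64) : ℕ) =
        ∑ r : Fin 64, 1 / q0 ^ (r : ℕ) :=
      Equiv.sum_comp (Equiv.subLeft (Fin.ofNat 64 n)) (fun r : Fin 64 => 1 / q0 ^ (r : ℕ))
    rw [h2]
    have h3 := mul_le_mul_of_nonneg_left sum_q0 (show 0 ≤ s * q0 ^ n by positivity)
    refine le_trans ?_ h3
    have h4 : s * q0 ^ n * (320 / 7 * q0) = 320 / 7 * (s * q0 ^ (n + 1)) := by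
      rw [pow_succ]
      ring
    rw [h4]
    linarith

end Pool.Agent.Helper39.SW
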