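import Pool.Agent.Helper39.SW.Charge

/-!
# SW, F3: many disjoint weighted augmentations
-/

set_option autoImplicit false

namespace Pool.Agent.Helper39.SW

variable {E : Type} [Fintype E] [DecidableEq E]

section

open Finset

omit [Fintype E] in
theorem many_of {k : ℕ} (M : Fin k → Matroid E) (u v : E → ℝ) (hv0 : ∀ e, 0 ≤ v e)
    {B : Finset E} {c : ℝ}
    (H : ∀ S : Finset E, (∀ i, (M i).Indep (S : Set E)) →
      (∀ X ⊆ S \ B, X.Nonempty → ¬ AugG M u B X) → ∑ e ∈ S, v e ≤ c) {Γ : ℝ} (n : ℕ) :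
    ∀ S : Finset E, S.card = n → (∀ i, (M i).Indep (S : Set E)) →
      (∀ e ∈ S, v e ≤ Γ) →
      ∃ F : Finset (Finset E), (∀ X ∈ F, X ⊆ S ∧ X.Nonempty ∧ AugG M u B X) ∧
        ((F : Set (Finset E)).PairwiseDisjoint id) ∧
        ∑ e ∈ S, v e ≤ c + 2 * Γ * F.card := by
  induction n using Nat.strong_induction_on with
  | _ n ih =>
    intro S hn hS hΓ
    by_cases hno : ∀ X ⊆ S \ B, X.Nonempty → ¬ AugG M u B X
    · refine ⟨∅, by simp, by simp, ?_⟩
      simpa using H S hS hno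
    · push Not at hno
      obtain ⟨X, hX, hXne, hA⟩ := hno
      have hXS : X ⊆ S := hX.trans sdiff_subset
      have hcard : (S \ X).card < n := by
        rw [← hn]
        exact card_lt_card (sdiff_ssubset hXS hXne)
      obtain ⟨F, hF, hFd, hFs⟩ := ih _ hcard (S \ X) rfl
        (fun i => (hS i).subset (by exact_mod_cast sdiff_subset))
        (fun e he => hΓ e (mem_sdiff.1 he).1)
      have hXF : X ∉ F := by
        intro h
        obtain ⟨x, hx⟩ := hXne
        exact (mem_sdiff.1 ((hF X h).1 hx)).2 hx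
      have hΓ0 : 0 ≤ Γ := by
        obtain ⟨x, hx⟩ := hXne
        exact (hv0 x).trans (hΓ x (hXS hx))
      refine ⟨insert X F, ?_, ?_, ?_⟩
      · intro Y hY
        rcases mem_insert.1 hY with rfl | hY
        · exact ⟨hXS, hXne, hA⟩
        · exact ⟨(hF Y hY).1.trans sdiff_subset, (hF Y hY).2⟩
      · rw [coe_insert]
        refine hFd.insert ?_
        intro Y hY _
        have h1 := (hF Y hY).1
        change Disjoint X Y
        exact (disjoint_sdiff (s := X) (t := S)).mono_right h1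
      · have h1 : ∑ e ∈ X, v e ≤ 2 * Γ := by
          calc ∑ e ∈ X, v e ≤ ∑ _e ∈ X, Γ := sum_le_sum fun e he => hΓ e (hXS he)
            _ = X.card * Γ := by rw [sum_const, nsmul_eq_mul]
            _ ≤ 2 * Γ := mul_le_mul_of_nonneg_right (by exact_mod_cast hA.1) hΓ0
        have h2 : ∑ e ∈ S, v e = ∑ e ∈ S \ X, v e + ∑ e ∈ X, v e := (sum_sdiff hXS).symm
        rw [card_insert_of_notMem hXF, h2]
        push_cast
        linarith

end

/-- F3 (file ManyW.lean). -/
theorem many_w {k : ℕ} (hk : 1 ≤ k) (M : Fin k → Matroid E)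
    (hE : ∀ i, (M i).E = Set.univ) (cls : E → ℕ) (g v : ℕ → ℝ)
    (hg : ∀ i, ∑ e ∈ Finset.univ.filter (fun e => i < cls e), g (cls e) < g i)
    (hg0 : ∀ i, 0 ≤ g i)
    (hv0 : ∀ i, 0 ≤ v i) (hv : ∀ i j, i < j → 2 * v j ≤ v i) {B : Finset E}
    (hB : ∀ i, (M i).Indep (B : Set E)) {Γ : ℝ} (n : ℕ) :
    ∀ S : Finset E, S.card = n → (∀ i, (M i).Indep (S : Set E)) →
      (∀ e ∈ S, v (cls e) ≤ Γ) →
      ∃ F : Finset (Finset E), (∀ X ∈ F, X ⊆ S ∧ X.Nonempty ∧
          AugG M (fun e => g (cls e)) B X) ∧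
        ((F : Set (Finset E)).PairwiseDisjoint id) ∧
        ∑ e ∈ S, v (cls e) ≤ (((k : ℝ) + 1) / 2) * (∑ e ∈ B, v (cls e)) +
          2 * Γ * F.card :=
  many_of M (fun e => g (cls e)) (fun e => v (cls e)) (fun _ => hv0 _)
    (fun _ hS hno => augment_w hk M hE cls g v hg hg0 hv0 hv hB hS hno) n

end Pool.Agent.Helper39.SW
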