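import Pool.Agent.Helper39.SW.Defs
import Pool.Agent.Helper39.SW.ManyW
import Pool.Agent.Helper39.SW.Grid

/-!
# Many disjoint common independent sets with weights in a bounded range
-/

set_option autoImplicit false
set_option maxHeartbeats 1000000

namespace Pool.Agent.Helper39.SW

open Pool.Agent.Helper68.SP Pool.Agent.Helper39.SR

variable {E : Type} [Fintype E] [DecidableEq E]

/-- The block theorem, average form. `S t`, `t < L`, are disjoint common independent sets with
weights in `[s, Γ s]`. -/
theorem dense_avg {k : ℕ} (hk : 1 ≤ k) (M : Fin k → Matroid E)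
    (hE : ∀ i, (M i).E = Set.univ) {L : ℕ} (hL : 1 ≤ L) (S : ℕ → Finset E)
    (hSi : ∀ t < L, ∀ i, (M i).Indep (S t : Set E))
    (hSd : ∀ s < L, ∀ t < L, s ≠ t → Disjoint (S s) (S t)) (w : E → ℝ)
    {s Γ : ℝ} (hs : 0 < s) (hΓ : 1 ≤ Γ)
    (hSw : ∀ t < L, ∀ e ∈ S t, s ≤ w e ∧ w e ≤ Γ * s)
    {p δ : ℝ} (hp : 0 < p) (hp1 : p ≤ 1) (hδ : 0 < δ) (hδ1 : δ ≤ 1 / 2)
    (hLd : (1000000 * Γ ^ 2 / δ ^ 2) * L * Real.exp (-(p ^ 2 * L * (δ / (8 * Γ)))) ≤ 1)
    (hLp : 4 * Γ ≤ p * L) :
    (1 - δ) * ((2 / ((k : ℝ) + 1)) * (5 / 7 - δ)) *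
        ((1 / (L : ℝ)) * ∑ t ∈ Finset.range L, ∑ e ∈ S t, w e) ≤
      Ex (fun _ => p) (fun R => optC (fun T : Finset E => ∀ i, (M i).Indep (T : Set E)) w
        ((Finset.range L).biUnion S ∩ R)) := by
  classical
  have hrate : IsRate (fun _ : E => p) := fun _ => ⟨hp.le, hp1⟩
  set Com : Finset E → Prop := fun T => ∀ i, (M i).Indep (T : Set E) with hCom
  have hC0 : Com ∅ := fun i => by simp
  have hLR : (1 : ℝ) ≤ L := by exact_mod_cast hL
  have hL0 : (0 : ℝ) < L := by linarith
  have hkR : (1 : ℝ) ≤ k := by exact_mod_cast hk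
  set Q : Finset E := (Finset.range L).biUnion S with hQ
  have hQw : ∀ e ∈ Q, s ≤ w e ∧ w e ≤ Γ * s := by
    intro e he
    rw [hQ, Finset.mem_biUnion] at he
    obtain ⟨t, ht, het⟩ := he
    exact hSw t (Finset.mem_range.1 ht) e het
  have hpd : ((Finset.range L : Finset ℕ) : Set ℕ).PairwiseDisjoint S := by
    intro a ha b hb hab
    exact hSd a (Finset.mem_range.1 (Finset.mem_coe.1 ha)) b
      (Finset.mem_range.1 (Finset.mem_coe.1 hb)) hab
  have hsum : ∀ f : E → ℝ, ∑ t ∈ Finset.range L, ∑ e ∈ S t, f e = ∑ e ∈ Q, f e := fun f => by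
    rw [hQ, Finset.sum_biUnion hpd]
  set W : ℝ := (1 / (L : ℝ)) * ∑ t ∈ Finset.range L, ∑ e ∈ S t, w e with hW
  have hWQ : ∑ e ∈ Q, w e = L * W := by
    rw [hW, hsum, ← mul_assoc, mul_one_div_cancel hL0.ne', one_mul]
  have hcardQ : (Q.card : ℝ) * s ≤ L * W := by
    rw [← hWQ, ← nsmul_eq_mul, ← Finset.sum_const]
    exact Finset.sum_le_sum fun e he => (hQw e he).1
  have hcardQ2 : (L : ℝ) * W ≤ Q.card * (Γ * s) := by
    rw [← hWQ, ← nsmul_eq_mul, ← Finset.sum_const]
    exact Finset.sum_le_sum fun e he => (hQw e he).2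
  have hW0 : 0 ≤ W := by
    have h1 : (0 : ℝ) ≤ L * W := le_trans (mul_nonneg (Nat.cast_nonneg _) hs.le) hcardQ
    by_contra h2
    push Not at h2
    nlinarith
  set ω : ℝ := W / s with hω
  have hωs : ω * s = W := by rw [hω]; field_simp
  have hω0 : 0 ≤ ω := div_nonneg hW0 hs.le
  have hcQ : (Q.card : ℝ) ≤ L * ω := by
    have h1 : (Q.card : ℝ) * s ≤ L * ω * s := by
      rw [mul_assoc, hωs]
      exact hcardQ
    exact le_of_mul_le_mul_right h1 hs
  set c : ℝ := (2 / ((k : ℝ) + 1)) * (5 / 7 - δ) with hc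
  have hc0 : 0 ≤ c := mul_nonneg (by positivity) (by linarith)
  have hc1 : c ≤ 1 := by
    have h1 : 2 / ((k : ℝ) + 1) ≤ 1 := by rw [div_le_one (by linarith)]; linarith
    have h2 : (0 : ℝ) ≤ 2 / ((k : ℝ) + 1) := by positivity
    rw [hc]
    nlinarith
  rcases le_or_gt ω (1 / 2) with hsmall | hbig
  · -- few elements
    have h1 : W ≤ Ex (fun _ => p) (fun R => optC Com w (Q ∩ R)) := by
      have h2 : ∀ R : Finset E, s * (1 - (if (Q ∩ R).Nonempty then (0 : ℝ) else 1)) ≤
          optC Com w (Q ∩ R) := by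
        intro R
        split_ifs with hne
        · obtain ⟨e, he⟩ := hne
          have heQ := (Finset.mem_inter.1 he).1
          have h3 : Com {e} := by
            rw [hQ, Finset.mem_biUnion] at heQ
            obtain ⟨t, ht, het⟩ := heQ
            intro i
            refine (hSi t (Finset.mem_range.1 ht) i).subset ?_
            rw [Finset.coe_singleton, Set.singleton_subset_iff]
            exact Finset.mem_coe.2 het
          have h4 := le_opt (w := w) (A := Q ∩ R) (Finset.singleton_subset_iff.2 he) h3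
          rw [Finset.sum_singleton] at h4
          have := (hQw e heQ).1
          linarith
        · rw [sub_self, mul_zero]
          exact opt_nonneg hC0 _
      refine le_trans ?_ (Ex_mono hrate h2)
      rw [Ex_mul_left, Ex_sub, Ex_const, prob_miss]
      have h5 : (1 - p) ^ Q.card * (1 + Q.card * p) ≤ 1 := by
        have h6 : 1 + (Q.card : ℝ) * p ≤ (1 + p) ^ Q.card := by
          have := one_add_mul_le_pow (by linarith : (-2 : ℝ) ≤ p) Q.card
          linarith
        calc (1 - p) ^ Q.card * (1 + Q.card * p) ≤ (1 - p) ^ Q.card * (1 + p) ^ Q.card :=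
              mul_le_mul_of_nonneg_left h6 (pow_nonneg (by linarith) _)
          _ = (1 - p ^ 2) ^ Q.card := by rw [← mul_pow]; ring
          _ ≤ 1 := pow_le_one₀ (by nlinarith) (by nlinarith)
      have h7 : 4 * ω ≤ Q.card * p := by
        have h8 : (L : ℝ) * ω * s ≤ Q.card * Γ * s := by
          have : (L : ℝ) * ω * s = L * W := by rw [mul_assoc, hωs]
          rw [this]
          linarith
        have h9 : (L : ℝ) * ω ≤ Q.card * Γ := le_of_mul_le_mul_right h8 hs
        have h10 : 4 * Γ * ω ≤ Q.card * p * Γ := by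
          calc 4 * Γ * ω ≤ p * L * ω := mul_le_mul_of_nonneg_right hLp hω0
            _ = p * (L * ω) := by ring
            _ ≤ p * (Q.card * Γ) := mul_le_mul_of_nonneg_left h9 hp.le
            _ = Q.card * p * Γ := by ring
        have h11 : 4 * ω * Γ ≤ Q.card * p * Γ := by linarith
        exact le_of_mul_le_mul_right h11 (by linarith)
      have h12 : ω ≤ 1 - (1 - p) ^ Q.card := by
        set y : ℝ := (1 - p) ^ Q.card with hy
        set x : ℝ := (Q.card : ℝ) * p with hx
        have hy0 : 0 ≤ y := pow_nonneg (by linarith) _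
        have hx0 : 0 ≤ x := mul_nonneg (Nat.cast_nonneg _) hp.le
        by_contra hlt
        push Not at hlt
        -- y > 1 - ω ≥ 1/2, and y (1 + x) ≤ 1 with x ≥ 4 ω
        have h13 : y * (1 + 4 * ω) ≤ 1 := by
          have : y * (1 + 4 * ω) ≤ y * (1 + x) := mul_le_mul_of_nonneg_left (by linarith) hy0
          linarith
        nlinarith
      calc W = s * ω := by rw [← hωs]; ring
        _ ≤ s * (1 - (1 - p) ^ Q.card) := mul_le_mul_of_nonneg_left h12 hs.le
    refine le_trans ?_ h1
    have h3 : (1 - δ) * c ≤ 1 := by nlinarith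
    have h4 : (1 - δ) * c * W ≤ 1 * W := mul_le_mul_of_nonneg_right h3 hW0
    linarith
  · -- the union bound
    obtain ⟨cls, g, v, hg, hg0, hv0, hv, hvw, hv57⟩ := grids w Q hs hQw
    set a : ℝ := c * W with ha
    have ha0 : 0 ≤ a := mul_nonneg hc0 hW0
    have haW : a ≤ W := by
      have := mul_le_mul_of_nonneg_right hc1 hW0
      rw [ha]
      linarith
    have hfam : ∀ (σ : Fin 64) (B : Finset E), ∃ F : Finset (Finset E), Com B →
        (∀ X ∈ F, X ⊆ Q ∧ AugG M (fun e => g (cls σ e)) B X) ∧
        ((F : Set (Finset E)).PairwiseDisjoint id) ∧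
        ∑ e ∈ Q, v σ (cls σ e) ≤ L * ((((k : ℝ) + 1) / 2) * ∑ e ∈ B, v σ (cls σ e)) +
          2 * (Γ * s) * F.card := by
      intro σ B
      by_cases hB : Com B
      · have h1 : ∀ t, ∃ F : Finset (Finset E), t < L →
            (∀ X ∈ F, X ⊆ S t ∧ X.Nonempty ∧ AugG M (fun e => g (cls σ e)) B X) ∧
            ((F : Set (Finset E)).PairwiseDisjoint id) ∧
            ∑ e ∈ S t, v σ (cls σ e) ≤ (((k : ℝ) + 1) / 2) * (∑ e ∈ B, v σ (cls σ e)) +
              2 * (Γ * s) * F.card := by
          intro t
          by_cases ht : t < L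
          · obtain ⟨F, hF⟩ := many_w hk M hE (cls σ) g (v σ) (hg σ) hg0 (hv0 σ) (hv σ) hB
              (Γ := Γ * s) (S t).card (S t) rfl (hSi t ht) (fun e he =>
                (hvw σ e (Finset.mem_biUnion.2 ⟨t, Finset.mem_range.2 ht, he⟩)).trans
                  (hSw t ht e he).2)
            exact ⟨F, fun _ => hF⟩
          · exact ⟨∅, fun h => absurd h ht⟩
        choose F hF using h1
        refine ⟨(Finset.range L).biUnion F, fun _ => ⟨?_, ?_, ?_⟩⟩
        · intro X hX
          rw [Finset.mem_biUnion] at hX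
          obtain ⟨t, ht, hXt⟩ := hX
          have h2 := (hF t (Finset.mem_range.1 ht)).1 X hXt
          exact ⟨h2.1.trans (Finset.subset_biUnion_of_mem S ht), h2.2.2⟩
        · intro X hX Y hY hne
          rw [Finset.mem_coe, Finset.mem_biUnion] at hX hY
          obtain ⟨a, ha, hXa⟩ := hX
          obtain ⟨b, hb, hYb⟩ := hY
          have ha' := Finset.mem_range.1 ha
          have hb' := Finset.mem_range.1 hb
          by_cases hab : a = b
          · subst hab
            exact (hF a ha').2.1 (Finset.mem_coe.2 hXa) (Finset.mem_coe.2 hYb) hne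
          · exact (hSd a ha' b hb' hab).mono ((hF a ha').1 X hXa).1 ((hF b hb').1 Y hYb).1
        · have hcard : ((Finset.range L).biUnion F).card = ∑ t ∈ Finset.range L, (F t).card := by
            refine Finset.card_biUnion fun a ha b hb hab => ?_
            have ha' := Finset.mem_range.1 ha
            have hb' := Finset.mem_range.1 hb
            rw [Function.onFun, Finset.disjoint_left]
            intro X hXa hXb
            obtain ⟨e, he⟩ := ((hF a ha').1 X hXa).2.1
            exact Finset.disjoint_left.1 (hSd a ha' b hb' hab) (((hF a ha').1 X hXa).1 he)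
              (((hF b hb').1 X hXb).1 he)
          rw [hcard, ← hsum]
          push_cast
          refine (Finset.sum_le_sum fun t ht => (hF t (Finset.mem_range.1 ht)).2.2).trans ?_
          rw [Finset.sum_add_distrib, Finset.sum_const, Finset.card_range, nsmul_eq_mul,
            ← Finset.mul_sum]
      · exact ⟨∅, fun h => absurd h hB⟩
    choose F hF using hfam
    set δ' : ℝ := δ / (2 * Γ) with hδ'
    have hδ'0 : 0 < δ' := by rw [hδ']; positivity
    let BB : Fin 64 → Finset (Finset E) := fun σ => Q.powerset.filter fun B =>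
      Com B ∧ (B.card : ℝ) ≤ ω ∧ δ' * L * ω ≤ (F σ B).card
    let Gd : Finset E → Prop := fun R => ∀ σ, ∀ B ∈ BB σ, ¬ ∀ X ∈ F σ B, ¬ X ⊆ R
    have hgood : ∀ R, Gd R → a ≤ optC Com w (Q ∩ R) := by
      intro R hG
      by_contra hlt
      push Not at hlt
      have hσ : ∀ σ : Fin 64, ∑ e ∈ Q, v σ (cls σ e) ≤
          L * ((((k : ℝ) + 1) / 2) * optC Com w (Q ∩ R)) + δ * (L * W) := by
        intro σ
        obtain ⟨B, hB1, hB2, hB3⟩ := opt_attained (w := fun e => g (cls σ e)) hC0 (Q ∩ R)
        have hBQ : B ⊆ Q := hB1.trans Finset.inter_subset_left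
        have hwB : ∑ e ∈ B, w e ≤ optC Com w (Q ∩ R) := le_opt hB1 hB2
        have hcB : (B.card : ℝ) ≤ ω := by
          have h1 : (B.card : ℝ) * s ≤ ∑ e ∈ B, w e := by
            rw [← nsmul_eq_mul, ← Finset.sum_const]
            exact Finset.sum_le_sum fun e he => (hQw e (hBQ he)).1
          have h2 : (B.card : ℝ) * s ≤ ω * s := by
            rw [hωs]
            linarith
          exact le_of_mul_le_mul_right h2 hs
        obtain ⟨hF1, -, hF3⟩ := hF σ B hB2
        have hnot : ((F σ B).card : ℝ) < δ' * L * ω := by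
          by_contra hge
          push Not at hge
          have hBB : B ∈ BB σ := Finset.mem_filter.2
            ⟨Finset.mem_powerset.2 hBQ, hB2, hcB, hge⟩
          have h2 := hG σ B hBB
          push Not at h2
          obtain ⟨X, hX, hXR⟩ := h2
          obtain ⟨hX1, -, B', hB'1, hB'2, hB'3⟩ := hF1 X hX
          have h3 : B' ⊆ Q ∩ R :=
            hB'2.trans (Finset.union_subset hB1 (Finset.subset_inter hX1 hXR))
          have h4 := le_opt (w := fun e => g (cls σ e)) h3 (show Com B' from hB'1)
          rw [← hB3] at h4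
          linarith
        have h5 : ∑ e ∈ B, v σ (cls σ e) ≤ optC Com w (Q ∩ R) :=
          (Finset.sum_le_sum fun e he => hvw σ e (hBQ he)).trans hwB
        have h6 : 2 * (Γ * s) * ((F σ B).card : ℝ) ≤ δ * (L * W) := by
          have h7 : 2 * (Γ * s) * ((F σ B).card : ℝ) ≤ 2 * (Γ * s) * (δ' * L * ω) :=
            mul_le_mul_of_nonneg_left hnot.le (by positivity)
          have h8 : 2 * (Γ * s) * (δ' * L * ω) = δ * (L * W) := by
            rw [hδ', ← hωs]
            field_simp
          linarith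
        have h9 : (L : ℝ) * ((((k : ℝ) + 1) / 2) * ∑ e ∈ B, v σ (cls σ e)) ≤
            L * ((((k : ℝ) + 1) / 2) * optC Com w (Q ∩ R)) :=
          mul_le_mul_of_nonneg_left (mul_le_mul_of_nonneg_left h5 (by positivity)) hL0.le
        linarith
      have h1 : 64 * (5 / 7) * (L * W) ≤ 64 *
          (L * ((((k : ℝ) + 1) / 2) * optC Com w (Q ∩ R)) + δ * (L * W)) := by
        calc 64 * (5 / 7) * (L * W) = ∑ e ∈ Q, 64 * (5 / 7) * w e := by
              rw [← Finset.mul_sum, hWQ]
          _ ≤ ∑ e ∈ Q, ∑ σ, v σ (cls σ e) := Finset.sum_le_sum fun e he => hv57 e he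
          _ = ∑ σ : Fin 64, ∑ e ∈ Q, v σ (cls σ e) := Finset.sum_comm
          _ ≤ ∑ _σ : Fin 64, (L * ((((k : ℝ) + 1) / 2) * optC Com w (Q ∩ R)) + δ * (L * W)) :=
              Finset.sum_le_sum fun σ _ => hσ σ
          _ = _ := by
              rw [Finset.sum_const, Finset.card_univ, Fintype.card_fin, nsmul_eq_mul]
              norm_num
      have h2 : (5 / 7 - δ) * W ≤ (((k : ℝ) + 1) / 2) * optC Com w (Q ∩ R) := by
        have h3 : ((5 / 7 - δ) * W) * L ≤ ((((k : ℝ) + 1) / 2) * optC Com w (Q ∩ R)) * L := by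
          have e1 : ((5 / 7 - δ) * W) * L = 5 / 7 * (L * W) - δ * (L * W) := by ring
          have e2 : ((((k : ℝ) + 1) / 2) * optC Com w (Q ∩ R)) * L =
            L * ((((k : ℝ) + 1) / 2) * optC Com w (Q ∩ R)) := by ring
          rw [e1, e2]
          linarith
        exact le_of_mul_le_mul_right h3 hL0
      have h4 : a ≤ optC Com w (Q ∩ R) := by
        have h5 : 2 / ((k : ℝ) + 1) * ((5 / 7 - δ) * W) ≤
            2 / ((k : ℝ) + 1) * ((((k : ℝ) + 1) / 2) * optC Com w (Q ∩ R)) :=
          mul_le_mul_of_nonneg_left h2 (by positivity)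
        have h6 : 2 / ((k : ℝ) + 1) * ((((k : ℝ) + 1) / 2) * optC Com w (Q ∩ R)) =
            optC Com w (Q ∩ R) := by
          field_simp
        rw [h6] at h5
        rw [ha, hc]
        linarith
      linarith
    have hp2 : p ^ 2 ≤ 1 := pow_le_one₀ hp.le hp1
    have hcount : ∀ σ, ((BB σ).card : ℝ) ≤ Real.exp (ω * (1 + Real.log L)) := by
      intro σ
      have hlog : 0 ≤ Real.log L := Real.log_nonneg hLR
      have h1 : ((BB σ).card : ℝ) * Real.exp (-(ω * Real.log L)) ≤ Real.exp ω := by
        calc ((BB σ).card : ℝ) * Real.exp (-(ω * Real.log L))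
            = ∑ _B ∈ BB σ, Real.exp (-(ω * Real.log L)) := by
              rw [Finset.sum_const, nsmul_eq_mul]
          _ ≤ ∑ B ∈ BB σ, (1 / (L : ℝ)) ^ B.card := by
              refine Finset.sum_le_sum fun B hB => ?_
              have h2 : (B.card : ℝ) ≤ ω := (Finset.mem_filter.1 hB).2.2.1
              have h3 : (1 / (L : ℝ)) = Real.exp (-(Real.log L)) := by
                rw [Real.exp_neg, Real.exp_log hL0, one_div]
              rw [h3, ← Real.exp_nat_mul]
              refine Real.exp_le_exp.2 ?_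
              nlinarith
          _ ≤ ∑ B ∈ Q.powerset, (1 / (L : ℝ)) ^ B.card :=
              Finset.sum_le_sum_of_subset_of_nonneg (Finset.filter_subset _ _)
                fun B _ _ => by positivity
          _ = ∑ B ∈ Q.powerset, (1 / (L : ℝ)) ^ B.card * 1 ^ (Q.card - B.card) := by
              simp
          _ = (1 / (L : ℝ) + 1) ^ Q.card := Finset.sum_pow_mul_eq_add_pow _ _ _
          _ ≤ Real.exp (1 / (L : ℝ)) ^ Q.card :=
              pow_le_pow_left₀ (by positivity) (Real.add_one_le_exp _) _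
          _ = Real.exp (Q.card * (1 / (L : ℝ))) := by rw [← Real.exp_nat_mul]
          _ ≤ Real.exp ω := by
              refine Real.exp_le_exp.2 ?_
              calc (Q.card : ℝ) * (1 / L) ≤ (L * ω) * (1 / L) :=
                    mul_le_mul_of_nonneg_right hcQ (by positivity)
                _ = ω := by field_simp
      have h4 : ((BB σ).card : ℝ) = ((BB σ).card : ℝ) * Real.exp (-(ω * Real.log L)) *
          Real.exp (ω * Real.log L) := by
        rw [mul_assoc, ← Real.exp_add, neg_add_cancel, Real.exp_zero, mul_one]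
      rw [h4, show ω * (1 + Real.log L) = ω + ω * Real.log L by ring, Real.exp_add]
      exact mul_le_mul_of_nonneg_right h1 (Real.exp_pos _).le
    have hnum : 64 * Real.exp (ω * (1 + Real.log L) - p ^ 2 * (δ' * L * ω)) ≤ δ := by
      set x : ℝ := p ^ 2 * L * (δ / (8 * Γ)) with hx
      have hx0 : 0 ≤ x := by positivity
      set Y : ℝ := 1 + Real.log L - 4 * x with hY
      have h1 : ω * (1 + Real.log L) - p ^ 2 * (δ' * L * ω) = ω * Y := by
        rw [hY, hx, hδ']
        field_simp
        ring
      rw [h1]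
      have h2 : Real.exp Y ≤ 3 * δ ^ 2 / 1000000 := by
        have h3 : (L : ℝ) * Real.exp (-x) ≤ δ ^ 2 / 1000000 := by
          have h4 : (1000000 / δ ^ 2) * (L * Real.exp (-x)) ≤ 1 := by
            refine le_trans ?_ hLd
            have h5 : (1 : ℝ) ≤ Γ ^ 2 := one_le_pow₀ hΓ
            have h6 : 1000000 / δ ^ 2 ≤ 1000000 * Γ ^ 2 / δ ^ 2 := by
              refine div_le_div_of_nonneg_right ?_ (by positivity)
              linarith
            calc (1000000 / δ ^ 2) * (L * Real.exp (-x)) ≤
                  (1000000 * Γ ^ 2 / δ ^ 2) * (L * Real.exp (-x)) :=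
                  mul_le_mul_of_nonneg_right h6 (by positivity)
              _ = _ := by ring
          have h7 : (L : ℝ) * Real.exp (-x) =
              δ ^ 2 / 1000000 * ((1000000 / δ ^ 2) * (L * Real.exp (-x))) := by
            field_simp
          rw [h7]
          calc δ ^ 2 / 1000000 * ((1000000 / δ ^ 2) * (L * Real.exp (-x))) ≤
                δ ^ 2 / 1000000 * 1 := mul_le_mul_of_nonneg_left h4 (by positivity)
            _ = δ ^ 2 / 1000000 := mul_one _
        have h8 : Real.exp Y = Real.exp 1 * (L * Real.exp (-x)) * Real.exp (-(3 * x)) := by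
          rw [hY]
          have : (1 : ℝ) + Real.log L - 4 * x = 1 + Real.log L + (-x) + (-(3 * x)) := by ring
          rw [this, Real.exp_add, Real.exp_add, Real.exp_add, Real.exp_log hL0]
          ring
        have h9 : Real.exp (-(3 * x)) ≤ 1 := Real.exp_le_one_iff.2 (by linarith)
        have h10 : Real.exp 1 ≤ 3 := by
          have := Real.exp_one_lt_d9
          linarith
        rw [h8]
        calc Real.exp 1 * (L * Real.exp (-x)) * Real.exp (-(3 * x)) ≤
              3 * (δ ^ 2 / 1000000) * 1 := by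
              refine mul_le_mul (mul_le_mul h10 h3 (by positivity) (by norm_num)) h9
                (Real.exp_pos _).le (by positivity)
          _ = 3 * δ ^ 2 / 1000000 := by ring
      have hY0 : Y ≤ 0 := by
        have h3 : Real.exp Y ≤ 1 := by
          refine h2.trans ?_
          nlinarith
        exact Real.exp_le_one_iff.1 h3
      have h4 : Real.exp (ω * Y) ≤ Real.exp (Y / 2) := by
        refine Real.exp_le_exp.2 ?_
        nlinarith
      have h5 : Real.exp (Y / 2) ≤ 2 * δ / 1000 := by
        have h6 : Real.exp (Y / 2) ^ 2 ≤ (2 * δ / 1000) ^ 2 := by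
          rw [← Real.exp_nat_mul]
          have : ((2 : ℕ) : ℝ) * (Y / 2) = Y := by push_cast; ring
          rw [this]
          refine h2.trans ?_
          nlinarith [sq_nonneg δ]
        exact le_of_sq_le_sq h6 (by positivity)
      linarith
    have hprob : 1 - δ ≤ Ex (fun _ => p) (fun R => if Gd R then (1 : ℝ) else 0) := by
      have h1 : ∀ R, (1 : ℝ) - ∑ σ : Fin 64, ∑ B ∈ BB σ,
          (if ∀ X ∈ F σ B, ¬ X ⊆ R then (1 : ℝ) else 0) ≤ if Gd R then (1 : ℝ) else 0 := by
        intro R
        have h0 : ∀ σ, ∀ B ∈ BB σ, (0 : ℝ) ≤ if ∀ X ∈ F σ B, ¬ X ⊆ R then (1 : ℝ) else 0 := by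
          intro σ B _
          split_ifs <;> norm_num
        have h0' : ∀ σ ∈ (Finset.univ : Finset (Fin 64)), (0 : ℝ) ≤ ∑ B ∈ BB σ,
            (if ∀ X ∈ F σ B, ¬ X ⊆ R then (1 : ℝ) else 0) := fun σ _ =>
          Finset.sum_nonneg (h0 σ)
        by_cases h : Gd R
        · rw [if_pos h]
          have := Finset.sum_nonneg h0'
          linarith
        · rw [if_neg h]
          simp only [Gd, not_forall, not_not] at h
          obtain ⟨σ, B, hB, hBX⟩ := h
          have h3 := Finset.single_le_sum
            (f := fun B => if ∀ X ∈ F σ B, ¬ X ⊆ R then (1 : ℝ) else 0) (h0 σ) hB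
          have h3' := Finset.single_le_sum (f := fun σ => ∑ B ∈ BB σ,
            (if ∀ X ∈ F σ B, ¬ X ⊆ R then (1 : ℝ) else 0)) h0' (Finset.mem_univ σ)
          have h4 : (if ∀ X ∈ F σ B, ¬ X ⊆ R then (1 : ℝ) else 0) = 1 := if_pos (by
            simpa using hBX)
          simp only [h4] at h3
          have h3'' : (1 : ℝ) ≤ ∑ σ : Fin 64, ∑ B ∈ BB σ,
            (if ∀ X ∈ F σ B, ¬ X ⊆ R then (1 : ℝ) else 0) := h3.trans h3'
          linarith
      refine le_trans ?_ (Ex_mono hrate h1)
      rw [Ex_sub, Ex_const, Ex_sum]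
      have h2 : ∀ σ, Ex (fun _ => p) (fun R => ∑ B ∈ BB σ,
          (if ∀ X ∈ F σ B, ¬ X ⊆ R then (1 : ℝ) else 0)) ≤
          Real.exp (ω * (1 + Real.log L) - p ^ 2 * (δ' * L * ω)) := by
        intro σ
        rw [Ex_sum]
        have h3 : ∀ B ∈ BB σ, Ex (fun _ => p)
            (fun R => if ∀ X ∈ F σ B, ¬ X ⊆ R then (1 : ℝ) else 0) ≤
            Real.exp (-(p ^ 2 * (δ' * L * ω))) := by
          intro B hB
          obtain ⟨-, hB1, hB2, hB3⟩ := Finset.mem_filter.1 hB
          obtain ⟨hF1, hF2, -⟩ := hF σ B hB1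
          refine (prob_none hp.le hp1 (F σ B) hF2 fun X hX => (hF1 X hX).2.1).trans ?_
          have h3 : 1 - p ^ 2 ≤ Real.exp (-(p ^ 2)) := by
            have := Real.add_one_le_exp (-(p ^ 2))
            linarith
          calc (1 - p ^ 2) ^ (F σ B).card ≤ Real.exp (-(p ^ 2)) ^ (F σ B).card :=
                pow_le_pow_left₀ (by linarith) h3 _
            _ = Real.exp (-(p ^ 2 * (F σ B).card)) := by
                rw [← Real.exp_nat_mul]
                congr 1
                ring
            _ ≤ Real.exp (-(p ^ 2 * (δ' * L * ω))) := by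
                refine Real.exp_le_exp.2 (neg_le_neg ?_)
                exact mul_le_mul_of_nonneg_left hB3 (by positivity)
        refine (Finset.sum_le_sum h3).trans ?_
        rw [Finset.sum_const, nsmul_eq_mul, sub_eq_add_neg, Real.exp_add]
        exact mul_le_mul_of_nonneg_right (hcount σ) (Real.exp_pos _).le
      have h5 : ∑ σ : Fin 64, Ex (fun _ => p) (fun R => ∑ B ∈ BB σ,
          (if ∀ X ∈ F σ B, ¬ X ⊆ R then (1 : ℝ) else 0)) ≤ δ := by
        refine (Finset.sum_le_sum fun σ _ => h2 σ).trans ?_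
        rw [Finset.sum_const, Finset.card_univ, Fintype.card_fin, nsmul_eq_mul]
        refine le_trans (le_of_eq ?_) hnum
        norm_num
      linarith
    calc (1 - δ) * c * W = a * (1 - δ) := by rw [ha]; ring
      _ ≤ a * Ex (fun _ => p) (fun R => if Gd R then (1 : ℝ) else 0) :=
          mul_le_mul_of_nonneg_left hprob ha0
      _ = Ex (fun _ => p) (fun R => a * (if Gd R then (1 : ℝ) else 0)) := by
          rw [Ex_mul_left]
      _ ≤ Ex (fun _ => p) (fun R => optC Com w (Q ∩ R)) := by
          refine Ex_mono hrate fun R => ?_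
          split_ifs with h
          · rw [mul_one]
            exact hgood R h
          · rw [mul_zero]
            exact opt_nonneg hC0 _

end Pool.Agent.Helper39.SW
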