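import Pool.Agent.Helper39.SR.Unit
import Pool.Agent.Helper68.SP.Merge

/-!
# F5: merging common independent sets of different weight scales
-/

set_option autoImplicit false

namespace Pool.Agent.Helper39.SW

open Pool.Agent.Helper68.SP Pool.Agent.Helper39.SR

variable {E : Type} [Fintype E] [DecidableEq E]

/-- in one matroid an independent set kills at most as many elements of another one -/
theorem merge_removal (M : Matroid E) (hE : M.E = Set.univ) {U T : Finset E}
    (hU : M.Indep (U : Set E)) (hT : M.Indep (T : Set E)) :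
    ∃ R : Finset E, R ⊆ T ∧ R.card ≤ U.card ∧ M.Indep ((U ∪ (T \ R) : Finset E) : Set E) := by
  classical
  obtain ⟨J, hJ, hUJ⟩ := hU.subset_isBasis_of_subset
    (X := ((U ∪ T : Finset E) : Set E)) (Finset.coe_subset.2 Finset.subset_union_left)
    (by rw [hE]; exact Set.subset_univ _)
  lift J to Finset E using Set.toFinite J
  have hUJ' : U ⊆ J := Finset.coe_subset.1 hUJ
  have hJT : J ⊆ U ∪ T := Finset.coe_subset.1 hJ.subset
  have hcard : T.card ≤ J.card := by
    refine card_le_of_subset_closure M hT (T := J) ?_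
    intro e he
    exact hJ.subset_closure (Finset.mem_coe.2 (Finset.mem_union_right _ he))
  refine ⟨T \ J, Finset.sdiff_subset, ?_, ?_⟩
  · have h1 : (T \ J).card + (T ∩ J).card = T.card := Finset.card_sdiff_add_card_inter T J
    have h2 : (J \ T).card + (J ∩ T).card = J.card := Finset.card_sdiff_add_card_inter J T
    rw [Finset.inter_comm J T] at h2
    have h3 : (J \ T).card ≤ U.card := by
      refine Finset.card_le_card ?_
      intro e he
      rw [Finset.mem_sdiff] at he
      rcases Finset.mem_union.1 (hJT he.1) with h | h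
      · exact h
      · exact absurd h he.2
    omega
  · refine hJ.indep.subset (Finset.coe_subset.2 ?_)
    intro e he
    rw [Finset.mem_union, Finset.mem_sdiff, Finset.mem_sdiff] at he
    rcases he with h | ⟨h1, h2⟩
    · exact hUJ' h
    · by_contra h3
      exact h2 ⟨h1, h3⟩

/-- a set with at most as many elements, each lighter than every value of `h` on `U` -/
theorem merge_weight (w h : E → ℝ) {R U : Finset E} (hc : R.card ≤ U.card)
    (h0 : ∀ e ∈ U, 0 ≤ h e) (hw : ∀ e ∈ R, 0 ≤ w e) (hle : ∀ e ∈ R, ∀ e' ∈ U, w e ≤ h e') :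
    ∑ e ∈ R, w e ≤ ∑ e ∈ U, h e := by
  classical
  rcases R.eq_empty_or_nonempty with hR | hR
  · rw [hR, Finset.sum_empty]
    exact Finset.sum_nonneg h0
  · obtain ⟨x, hx, hmax⟩ := Finset.exists_max_image R w hR
    have h1 : ∑ e ∈ R, w e ≤ (R.card : ℝ) * w x := by
      rw [← nsmul_eq_mul]
      exact Finset.sum_le_card_nsmul _ _ _ hmax
    have h2 : (U.card : ℝ) * w x ≤ ∑ e ∈ U, h e := by
      rw [← nsmul_eq_mul]
      exact Finset.card_nsmul_le_sum _ _ _ (hle x hx)
    have h3 : (R.card : ℝ) ≤ U.card := by exact_mod_cast hc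
    have h4 := mul_le_mul_of_nonneg_right h3 (hw x hx)
    linarith

/-- the induction over the blocks, heaviest first -/
theorem mergeM_aux {k : ℕ} (M : Fin k → Matroid E) (hE : ∀ i, (M i).E = Set.univ) {γ : ℝ}
    (hγ : 1 < γ) (w : E → ℝ) (hw : ∀ e, 0 ≤ w e) (b : E → ℤ) (T : ℤ → Finset E) (I : Finset ℤ) :
    (∀ β ∈ I, ∀ i, (M i).Indep (T β : Set E)) → (∀ β ∈ I, ∀ e ∈ T β, b e = β) →
    (∀ β ∈ I, ∀ β' ∈ I, β < β' → ∀ e ∈ T β, ∀ e' ∈ T β',
      γ ^ (β' - β).toNat * w e ≤ w e') →
    ∃ U : Finset E, U ⊆ I.biUnion T ∧ (∀ i, (M i).Indep (U : Set E)) ∧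
      ∑ β ∈ I, ∑ e ∈ T β, w e ≤ ∑ e ∈ U, w e +
        ∑ e ∈ U, (k : ℝ) * ((∑ β ∈ I.filter (fun β => β < b e), (γ⁻¹) ^ (b e - β).toNat) * w e) := by
  classical
  have hγ0 : 0 < γ := by linarith
  induction I using Finset.induction_on_min with
  | empty =>
    intro _ _ _
    exact ⟨∅, by simp, fun i => by simp, by simp⟩
  | insert a I ha ih =>
    intro hTi hTb hgap
    have haI : a ∉ I := fun h => lt_irrefl _ (ha a h)
    obtain ⟨U, hUI, hUind, hUw⟩ := ih
      (fun β hβ => hTi β (Finset.mem_insert_of_mem hβ))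
      (fun β hβ => hTb β (Finset.mem_insert_of_mem hβ))
      (fun β hβ β' hβ' => hgap β (Finset.mem_insert_of_mem hβ) β' (Finset.mem_insert_of_mem hβ'))
    have hTa := hTi a (Finset.mem_insert_self _ _)
    have hrem := fun i => merge_removal (M i) (hE i) (hUind i) (hTa i)
    choose R hRT hRc hRi using hrem
    set X : Finset E := Finset.univ.biUnion R with hX
    have hbU : ∀ e ∈ U, b e ∈ I ∧ e ∈ T (b e) := by
      intro e he
      obtain ⟨β, hβ, heβ⟩ := Finset.mem_biUnion.1 (hUI he)
      have := hTb β (Finset.mem_insert_of_mem hβ) e heβ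
      rw [this]
      exact ⟨hβ, heβ⟩
    have hdisj : Disjoint U (T a \ X) := by
      rw [Finset.disjoint_left]
      intro e he he'
      have h1 := (hbU e he).1
      have h2 := hTb a (Finset.mem_insert_self _ _) e (Finset.mem_sdiff.1 he').1
      rw [h2] at h1
      exact haI h1
    have hlossi : ∀ i, ∑ e ∈ R i, w e ≤ ∑ e ∈ U, (γ⁻¹) ^ (b e - a).toNat * w e := by
      intro i
      refine merge_weight w (fun e => (γ⁻¹) ^ (b e - a).toNat * w e) (hRc i)
        (fun e _ => mul_nonneg (by positivity) (hw e)) (fun e _ => hw e) ?_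
      intro e he e' he'
      obtain ⟨h1, h2⟩ := hbU e' he'
      have h3 := hgap a (Finset.mem_insert_self _ _) (b e') (Finset.mem_insert_of_mem h1)
        (ha _ h1) e (hRT i he) e' h2
      rw [inv_pow, inv_mul_eq_div, le_div_iff₀ (by positivity), mul_comm]
      exact h3
    have hloss : ∑ e ∈ X, w e ≤ (k : ℝ) * ∑ e ∈ U, (γ⁻¹) ^ (b e - a).toNat * w e := by
      have h1 : ∑ e ∈ X, w e ≤ ∑ i : Fin k, ∑ e ∈ R i, w e := by
        have q1 : ∑ e ∈ X, w e ≤ ∑ e ∈ X, ∑ i : Fin k, if e ∈ R i then w e else 0 := by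
          refine Finset.sum_le_sum fun e he => ?_
          rw [hX, Finset.mem_biUnion] at he
          obtain ⟨i, -, hi⟩ := he
          have q0 : ∀ j ∈ (Finset.univ : Finset (Fin k)), 0 ≤ (if e ∈ R j then w e else 0) := by
            intro j _
            split_ifs
            · exact hw e
            · exact le_rfl
          have := Finset.single_le_sum q0 (Finset.mem_univ i)
          rwa [if_pos hi] at this
        refine q1.trans (le_of_eq ?_)
        rw [Finset.sum_comm]
        refine Finset.sum_congr rfl fun i _ => ?_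
        rw [← Finset.sum_filter]
        refine Finset.sum_congr ?_ fun _ _ => rfl
        ext e
        rw [Finset.mem_filter]
        refine ⟨fun h => h.2, fun h => ⟨?_, h⟩⟩
        rw [hX, Finset.mem_biUnion]
        exact ⟨i, Finset.mem_univ i, h⟩
      refine h1.trans ((Finset.sum_le_sum fun i _ => hlossi i).trans ?_)
      rw [Finset.sum_const, Finset.card_univ, Fintype.card_fin, nsmul_eq_mul]
    refine ⟨U ∪ (T a \ X), ?_, ?_, ?_⟩
    · intro e he
      rw [Finset.mem_union] at he
      rw [Finset.biUnion_insert, Finset.mem_union]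
      rcases he with h | h
      · exact Or.inr (hUI h)
      · exact Or.inl (Finset.mem_sdiff.1 h).1
    · intro i
      refine (hRi i).subset (Finset.coe_subset.2 ?_)
      refine Finset.union_subset_union subset_rfl ?_
      intro e he
      rw [Finset.mem_sdiff] at he ⊢
      refine ⟨he.1, fun h => he.2 ?_⟩
      rw [hX, Finset.mem_biUnion]
      exact ⟨i, Finset.mem_univ i, h⟩
    · rw [Finset.sum_insert haI, Finset.sum_union hdisj, Finset.sum_union hdisj]
      have h1 : ∑ e ∈ T a, w e ≤ ∑ e ∈ T a \ X, w e + ∑ e ∈ X, w e := by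
        have h2 : ∑ e ∈ T a, w e = ∑ e ∈ T a \ X, w e + ∑ e ∈ T a ∩ X, w e := by
          rw [← Finset.sum_union]
          · congr 1
            rw [Finset.sdiff_union_inter]
          · exact Finset.disjoint_sdiff_inter _ _
        have h3 : ∑ e ∈ T a ∩ X, w e ≤ ∑ e ∈ X, w e :=
          Finset.sum_le_sum_of_subset_of_nonneg Finset.inter_subset_right (fun e _ _ => hw e)
        linarith
      have h4 : 0 ≤ ∑ e ∈ T a \ X, (k : ℝ) *
          ((∑ β ∈ (insert a I).filter (fun β => β < b e), (γ⁻¹) ^ (b e - β).toNat) * w e) := by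
        refine Finset.sum_nonneg fun e _ => ?_
        refine mul_nonneg (Nat.cast_nonneg _) (mul_nonneg ?_ (hw e))
        exact Finset.sum_nonneg fun β _ => by positivity
      have h5 : ∑ e ∈ U, (k : ℝ) *
          ((∑ β ∈ (insert a I).filter (fun β => β < b e), (γ⁻¹) ^ (b e - β).toNat) * w e) =
          (k : ℝ) * ∑ e ∈ U, (γ⁻¹) ^ (b e - a).toNat * w e +
          ∑ e ∈ U, (k : ℝ) *
            ((∑ β ∈ I.filter (fun β => β < b e), (γ⁻¹) ^ (b e - β).toNat) * w e) := by
        rw [Finset.mul_sum, ← Finset.sum_add_distrib]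
        refine Finset.sum_congr rfl fun e he => ?_
        have h6 := ha _ (hbU e he).1
        rw [Finset.filter_insert, if_pos h6, Finset.sum_insert (by
          rw [Finset.mem_filter]
          exact fun h => haI h.1)]
        ring
      rw [h5]
      linarith

/-- F5 (file MergeM.lean). -/
theorem mergeM {k : ℕ} (M : Fin k → Matroid E) (hE : ∀ i, (M i).E = Set.univ) {γ : ℝ}
    (hγ : 1 < γ) (w : E → ℝ) (hw : ∀ e, 0 ≤ w e) (b : E → ℤ) (I : Finset ℤ)
    (T : ℤ → Finset E) (hTi : ∀ β ∈ I, ∀ i, (M i).Indep (T β : Set E))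
    (hTb : ∀ β ∈ I, ∀ e ∈ T β, b e = β)
    (hgap : ∀ β ∈ I, ∀ β' ∈ I, β < β' → ∀ e ∈ T β, ∀ e' ∈ T β',
      γ ^ (β' - β).toNat * w e ≤ w e') :
    ∃ U : Finset E, U ⊆ I.biUnion T ∧ (∀ i, (M i).Indep (U : Set E)) ∧
      ∑ β ∈ I, ∑ e ∈ T β, w e ≤ (1 + k / (γ - 1)) * ∑ e ∈ U, w e := by
  classical
  obtain ⟨U, hUI, hUind, hUw⟩ := mergeM_aux M hE hγ w hw b T I hTi hTb hgap
  refine ⟨U, hUI, hUind, hUw.trans ?_⟩
  have hgeo : ∀ e : E, ∑ β ∈ I.filter (fun β => β < b e), (γ⁻¹) ^ (b e - β).toNat ≤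
      1 / (γ - 1) := by
    intro e
    have hγ0 : 0 < γ := by linarith
    have h := merge_inner (E := ℤ) (fun β => (γ⁻¹) ^ (b e - β).toNat)
      (I.filter (fun β => β < b e)) (fun β => (b e - β).toNat)
      (by
        intro β hβ
        have := (Finset.mem_filter.1 hβ).2
        show 1 ≤ (b e - β).toNat
        omega)
      (by
        intro β hβ β' hβ' h
        have h1 := (Finset.mem_filter.1 hβ).2
        have h2 := (Finset.mem_filter.1 hβ').2
        have h3 : (b e - β).toNat = (b e - β').toNat := h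
        omega)
      γ 1 hγ zero_le_one
      (by
        intro β _
        show (γ⁻¹) ^ (b e - β).toNat * γ ^ (b e - β).toNat ≤ 1
        rw [← mul_pow, inv_mul_cancel₀ hγ0.ne', one_pow])
    exact h
  have h1 : ∑ e ∈ U, (k : ℝ) *
      ((∑ β ∈ I.filter (fun β => β < b e), (γ⁻¹) ^ (b e - β).toNat) * w e) ≤
      ∑ e ∈ U, (k : ℝ) * (1 / (γ - 1) * w e) := by
    refine Finset.sum_le_sum fun e _ => ?_
    exact mul_le_mul_of_nonneg_left (mul_le_mul_of_nonneg_right (hgeo e) (hw e)) (Nat.cast_nonneg _)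
  have h2 : ∑ e ∈ U, (k : ℝ) * (1 / (γ - 1) * w e) = (k / (γ - 1)) * ∑ e ∈ U, w e := by
    rw [Finset.mul_sum]
    refine Finset.sum_congr rfl fun e _ => ?_
    ring
  rw [add_mul, one_mul]
  linarith

end Pool.Agent.Helper39.SW
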