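import Pool.Agent.Helper39.SR.Unit
import Pool.Agent.Helper68.SP.Scale

/-!
# Weight scales: one residue class of scales is removed
-/

set_option autoImplicit false

namespace Pool.Agent.Helper39.SW

open Pool.Agent.Helper68.SP Pool.Agent.Helper39.SR

variable {E : Type} [Fintype E] [DecidableEq E]

omit [Fintype E] [DecidableEq E] in
/-- F5b. -/
theorem scalesM (w : E → ℝ) (hw : ∀ e, 0 ≤ w e) (Q : Finset E) {γ : ℝ} (hγ : 1 < γ)
    {m : ℕ} (hm : 2 ≤ m) :
    ∃ (K : Finset E) (b : E → ℤ) (s : ℤ → ℝ), K ⊆ Q ∧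
      (∀ e ∈ K, 0 < s (b e) ∧ s (b e) ≤ w e ∧ w e ≤ γ ^ m * s (b e)) ∧
      (∀ e ∈ K, ∀ e' ∈ K, b e < b e' → γ ^ (b e' - b e).toNat * w e ≤ w e') ∧
      (1 - 1 / (m : ℝ)) * ∑ e ∈ Q, w e ≤ ∑ e ∈ K, w e := by
  classical
  have hm1 : 1 ≤ m := by omega
  have hγ0 : 0 < γ := by linarith
  have hmR : (0 : ℝ) < m := by exact_mod_cast hm1
  have hm0 : (0 : ℤ) < m := by exact_mod_cast hm1
  have hjex : ∀ e, ∃ n : ℤ, 0 < w e → γ ^ n ≤ w e ∧ w e < γ ^ (n + 1) := by
    intro e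
    by_cases h : 0 < w e
    · obtain ⟨n, hn⟩ := exists_mem_Ico_zpow h hγ
      exact ⟨n, fun _ => ⟨hn.1, hn.2⟩⟩
    · exact ⟨0, fun h1 => absurd h1 h⟩
  choose j hj using hjex
  set A : ℝ := ∑ e ∈ Q, w e with hA
  obtain ⟨ρ, hρm, hρ⟩ : ∃ ρ : ℕ, ρ < m ∧
      ∑ e ∈ Q.filter (fun e => 0 < w e ∧ j e % (m : ℤ) = (ρ : ℤ)), w e ≤ A / m := by
    by_contra hcon
    push Not at hcon
    have h1 : ∑ ρ ∈ Finset.range m,
        ∑ e ∈ Q.filter (fun e => 0 < w e ∧ j e % (m : ℤ) = (ρ : ℤ)), w e ≤ A := by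
      have h2 : ∀ ρ ∈ Finset.range m,
          ∑ e ∈ Q.filter (fun e => 0 < w e ∧ j e % (m : ℤ) = (ρ : ℤ)), w e =
          ∑ e ∈ Q, if (0 < w e ∧ j e % (m : ℤ) = (ρ : ℤ)) then w e else 0 := by
        intro ρ _
        rw [Finset.sum_filter]
      rw [Finset.sum_congr rfl h2, Finset.sum_comm, hA]
      refine Finset.sum_le_sum fun e _ => ?_
      by_cases hwe : 0 < w e
      · have h3 := Int.emod_nonneg (j e) hm0.ne'
        obtain ⟨r, hr⟩ := Int.eq_ofNat_of_zero_le h3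
        have h5 : ∀ ρ ∈ Finset.range m, (if (0 < w e ∧ j e % (m : ℤ) = (ρ : ℤ)) then w e else 0) =
            if ρ = r then w e else 0 := by
          intro ρ _
          have : (0 < w e ∧ j e % (m : ℤ) = (ρ : ℤ)) ↔ ρ = r := by
            rw [hr]
            constructor
            · rintro ⟨_, h⟩
              exact_mod_cast h.symm
            · rintro rfl
              exact ⟨hwe, rfl⟩
          simp only [this]
        rw [Finset.sum_congr rfl h5, Finset.sum_ite_eq']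
        split_ifs
        · exact le_rfl
        · exact hw e
      · have h5 : ∀ ρ ∈ Finset.range m,
            (if (0 < w e ∧ j e % (m : ℤ) = (ρ : ℤ)) then w e else 0) = 0 := by
          intro ρ _
          rw [if_neg]
          exact fun h => hwe h.1
        rw [Finset.sum_congr rfl h5, Finset.sum_const_zero]
        exact hw e
    have h3 : ∑ ρ ∈ Finset.range m, A / m < ∑ ρ ∈ Finset.range m,
        ∑ e ∈ Q.filter (fun e => 0 < w e ∧ j e % (m : ℤ) = (ρ : ℤ)), w e := by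
      apply Finset.sum_lt_sum_of_nonempty
      · exact ⟨0, Finset.mem_range.2 (by omega)⟩
      · intro ρ hρ
        exact hcon ρ (Finset.mem_range.1 hρ)
    rw [Finset.sum_const, Finset.card_range, nsmul_eq_mul, mul_div_cancel₀ _ hmR.ne'] at h3
    linarith
  set Kp : Finset E := Q.filter (fun e => 0 < w e ∧ j e % (m : ℤ) ≠ (ρ : ℤ)) with hKp
  set b : E → ℤ := fun e => (j e - ρ) / m with hb
  set s : ℤ → ℝ := fun β => γ ^ ((ρ : ℤ) + m * β + 1) with hs
  have hs0 : ∀ β, 0 < s β := fun β => zpow_pos hγ0 _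
  have hKpb : ∀ e ∈ Kp, s (b e) ≤ w e ∧ w e ≤ γ ^ ((ρ : ℤ) + m * b e + m) := by
    intro e he
    rw [hKp, Finset.mem_filter] at he
    obtain ⟨-, hwe, hje⟩ := he
    obtain ⟨h1, h2⟩ := hj e hwe
    exact scale_bounds hγ hm1 hρm hje h1 h2
  refine ⟨Kp, b, s, Finset.filter_subset _ _, ?_, ?_, ?_⟩
  · intro e he
    obtain ⟨h1, h2⟩ := hKpb e he
    refine ⟨hs0 _, h1, h2.trans ?_⟩
    rw [hs]
    simp only
    rw [← zpow_natCast γ m, ← zpow_add₀ hγ0.ne']
    apply zpow_le_zpow_right₀ hγ.le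
    omega
  · intro e he e' he' hbe
    have h3 := (hKpb e he).2
    have h4 := (hKpb e' he').1
    refine le_trans ?_ h4
    refine le_trans (mul_le_mul_of_nonneg_left h3 (pow_nonneg hγ0.le _)) ?_
    rw [hs]
    simp only
    rw [← zpow_natCast γ (b e' - b e).toNat, ← zpow_add₀ hγ0.ne']
    apply zpow_le_zpow_right₀ hγ.le
    rw [Int.toNat_of_nonneg (by omega)]
    have hm2 : (1 : ℤ) ≤ m := by exact_mod_cast hm1
    have h5 : 0 ≤ ((m : ℤ) - 1) * (b e' - b e - 1) :=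
      mul_nonneg (by omega) (by omega)
    nlinarith [h5]
  · have h1 : ∑ e ∈ Q, w e = ∑ e ∈ Kp, w e +
        ∑ e ∈ Q.filter (fun e => 0 < w e ∧ j e % (m : ℤ) = (ρ : ℤ)), w e := by
      rw [hKp, Finset.sum_filter, Finset.sum_filter, ← Finset.sum_add_distrib]
      refine Finset.sum_congr rfl fun e _ => ?_
      by_cases hwe : 0 < w e
      · by_cases hje : j e % (m : ℤ) = (ρ : ℤ) <;> simp [hwe, hje]
      · have hwe0 : w e = 0 := le_antisymm (not_lt.1 hwe) (hw e)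
        simp [hwe0]
    rw [← hA] at h1
    have h2 : (1 - 1 / (m : ℝ)) * A = A - A / m := by ring
    rw [h2]
    linarith

end Pool.Agent.Helper39.SW
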