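import Pool.Agent.Helper39.SR.Unit
import Pool.Agent.Helper39.SW.DenseW
import Pool.Agent.Helper39.SW.MergeM
import Pool.Agent.Helper39.SW.ScalesM
import Pool.Agent.Helper39.SW.Num

/-!
# All weights: the final assembly

Layers of maximum-weight common independent sets, cut into well-separated weight blocks; the
block theorem in each block, and the merging of the optima of the blocks.
-/

set_option autoImplicit false

namespace Pool.Agent.Helper39.SW

open Pool.Agent.Helper68.SP Pool.Agent.Helper39.SR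

variable {E : Type} [Fintype E] [DecidableEq E]

/-- All weights, with `L` layers: the bound for fixed numbers. -/
theorem main_w {k : ℕ} (hk : 1 ≤ k) (M : Fin k → Matroid E) (hE : ∀ i, (M i).E = Set.univ)
    {L : ℕ} (hL : 1 ≤ L) (w : E → ℝ) (hw : ∀ e, 0 ≤ w e) {p δ γ : ℝ} (hp : 0 < p)
    (hp1 : p ≤ 1) (hδ : 0 < δ) (hδ1 : δ ≤ 1 / 2) (hγ : 1 < γ) {m : ℕ} (hm : 2 ≤ m)
    (hγδ : (k : ℝ) / (γ - 1) ≤ δ) (hmδ : 1 / (m : ℝ) ≤ δ)
    (hLd : (1000000 * (γ ^ m) ^ 2 / δ ^ 2) * L *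
      Real.exp (-(p ^ 2 * L * (δ / (8 * γ ^ m)))) ≤ 1)
    (hLp : 4 * γ ^ m ≤ p * L) :
    ∃ Q : Finset E, Q.card ≤ L * sSup {n : ℕ | ∃ S : Finset E,
        (∀ i, (M i).Indep (S : Set E)) ∧ n = S.card} ∧
      (1 - 5 * δ) * (10 / (7 * k + 17)) * Ex (fun _ => p)
          (optC (fun S : Finset E => ∀ i, (M i).Indep (S : Set E)) w) ≤
        Ex (fun _ => p) (fun R =>
          optC (fun S : Finset E => ∀ i, (M i).Indep (S : Set E)) w (Q ∩ R)) := by
  classical
  have hrate : IsRate (fun _ : E => p) := fun _ => ⟨hp.le, hp1⟩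
  set Com : Finset E → Prop := fun S => ∀ i, (M i).Indep (S : Set E) with hCom
  have hC0 : Com ∅ := fun i => by simp
  have hsub : ∀ S T : Finset E, S ⊆ T → Com T → Com S := fun S T h hT i =>
    (hT i).subset (Finset.coe_subset.2 h)
  have hkR : (1 : ℝ) ≤ k := by exact_mod_cast hk
  have hLR : (1 : ℝ) ≤ L := by exact_mod_cast hL
  have hKr : ∀ A : Finset E, ∃ S : Finset E, S ⊆ A ∧ Com S ∧ ∑ e ∈ S, w e = optC Com w A :=
    fun A => opt_attained hC0 A
  choose Kr hKA hKC hKo using hKr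
  let S : ℕ → Finset E := fun t => Kr (restF Kr t)
  let Q : Finset E := (Finset.range L).biUnion S
  have hSd : ∀ s < L, ∀ t < L, s ≠ t → Disjoint (S s) (S t) := by
    intro s _ t _ hne
    rw [Finset.disjoint_left]
    intro e he he'
    rcases lt_or_gt_of_ne hne with h | h
    · exact layF_disj Kr hKA h he he'
    · exact layF_disj Kr hKA h he' he
  have hbdd : BddAbove {n : ℕ | ∃ S : Finset E, Com S ∧ n = S.card} := by
    refine ⟨Fintype.card E, ?_⟩
    rintro n ⟨S, -, rfl⟩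
    exact Finset.card_le_univ S
  set W : ℝ := optC Com w (restF Kr L) with hW
  have hW0 : 0 ≤ W := opt_nonneg hC0 _
  have hWS : ∀ t < L, W ≤ ∑ e ∈ S t, w e := by
    intro t ht
    rw [hKo]
    exact opt_mono hC0 (restF_anti Kr ht.le)
  have hres : ∀ R, optC Com w R ≤ optC Com w (Q ∩ R) + W := by
    intro R
    refine opt_le hC0 fun X hXR hX => ?_
    have h1 : ∑ e ∈ X ∩ Q, w e + ∑ e ∈ X \ Q, w e = ∑ e ∈ X, w e :=
      Finset.sum_inter_add_sum_sdiff X Q w
    have h2 : ∑ e ∈ X \ Q, w e ≤ W := by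
      refine le_opt ?_ (hsub _ _ Finset.sdiff_subset hX)
      intro e he
      refine mem_restF Kr fun s hs hes => (Finset.mem_sdiff.1 he).2 ?_
      exact Finset.mem_biUnion.2 ⟨s, Finset.mem_range.2 hs, hes⟩
    have h3 : ∑ e ∈ X ∩ Q, w e ≤ optC Com w (Q ∩ R) :=
      le_opt (fun e he => Finset.mem_inter.2 ⟨(Finset.mem_inter.1 he).2,
          hXR (Finset.mem_inter.1 he).1⟩) (hsub _ _ Finset.inter_subset_left hX)
    linarith
  -- the blocks
  obtain ⟨K, b, sc, hKQ, hKs, hKg, hKw⟩ := scalesM w hw Q hγ hm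
  let I : Finset ℤ := K.image b
  let SB : ℤ → ℕ → Finset E := fun β t => (S t ∩ K).filter fun e => b e = β
  have hSB : ∀ β t e, e ∈ SB β t ↔ e ∈ S t ∧ e ∈ K ∧ b e = β := by
    intro β t e
    simp only [SB, Finset.mem_filter, Finset.mem_inter, and_assoc]
  have hSBS : ∀ β t, SB β t ⊆ S t := fun β t e he => ((hSB β t e).1 he).1
  let QB : ℤ → Finset E := fun β => (Finset.range L).biUnion (SB β)
  have hQB : ∀ β e, e ∈ QB β → e ∈ Q ∧ e ∈ K ∧ b e = β := by
    intro β e he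
    obtain ⟨t, ht, het⟩ := Finset.mem_biUnion.1 he
    exact ⟨Finset.mem_biUnion.2 ⟨t, ht, hSBS β t het⟩, ((hSB β t e).1 het).2⟩
  -- the lower bound in each block
  set c : ℝ := (1 - δ) * ((2 / ((k : ℝ) + 1)) * (5 / 7 - δ)) with hc
  have hc0 : 0 ≤ c := mul_nonneg (by linarith) (mul_nonneg (by positivity) (by linarith))
  have hblock : ∀ β ∈ I, c * ((1 / (L : ℝ)) * ∑ t ∈ Finset.range L, ∑ e ∈ SB β t, w e) ≤
      Ex (fun _ => p) (fun R => optC Com w (QB β ∩ R)) := by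
    intro β hβ
    obtain ⟨e₀, he₀, he₀β⟩ := Finset.mem_image.1 hβ
    have hs0 : 0 < sc β := he₀β ▸ (hKs e₀ he₀).1
    refine dense_avg hk M hE hL (SB β) ?_ ?_ w hs0 (one_le_pow₀ hγ.le) ?_ hp hp1 hδ hδ1 hLd hLp
    · exact fun t _ => hsub _ _ (hSBS β t) (hKC _)
    · exact fun s hs t ht hne => (hSd s hs t ht hne).mono (hSBS β s) (hSBS β t)
    · intro t _ e he
      obtain ⟨-, heK, heβ⟩ := (hSB β t e).1 he
      have := hKs e heK
      rw [heβ] at this
      exact this.2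
  -- merging
  have hmerge : ∀ R, ∑ β ∈ I, optC Com w (QB β ∩ R) ≤
      (1 + k / (γ - 1)) * optC Com w (Q ∩ R) := by
    intro R
    have hT : ∀ β, ∃ T : Finset E, T ⊆ QB β ∩ R ∧ Com T ∧
        ∑ e ∈ T, w e = optC Com w (QB β ∩ R) := fun β => opt_attained hC0 _
    choose T hT1 hT2 hT3 using hT
    have hTm : ∀ β e, e ∈ T β → (e ∈ Q ∧ e ∈ K ∧ b e = β) ∧ e ∈ R := fun β e he =>
      ⟨hQB β e (Finset.mem_inter.1 (hT1 β he)).1, (Finset.mem_inter.1 (hT1 β he)).2⟩
    obtain ⟨U, hU1, hU2, hU3⟩ := mergeM M hE hγ w hw b I T (fun β _ => hT2 β)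
      (fun β _ e he => (hTm β e he).1.2.2) (by
        intro β _ β' _ hlt e he e' he'
        have h1 := (hTm β e he).1.2
        have h2 := (hTm β' e' he').1.2
        have h3 := hKg e h1.1 e' h2.1
        rw [h1.2, h2.2] at h3
        exact h3 hlt)
    have hUQ : U ⊆ Q ∩ R := by
      refine hU1.trans (Finset.biUnion_subset.2 fun β _ e he => ?_)
      exact Finset.mem_inter.2 ⟨(hTm β e he).1.1, (hTm β e he).2⟩
    calc ∑ β ∈ I, optC Com w (QB β ∩ R) = ∑ β ∈ I, ∑ e ∈ T β, w e :=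
          Finset.sum_congr rfl fun β _ => (hT3 β).symm
      _ ≤ (1 + k / (γ - 1)) * ∑ e ∈ U, w e := hU3
      _ ≤ (1 + k / (γ - 1)) * optC Com w (Q ∩ R) := by
          refine mul_le_mul_of_nonneg_left (le_opt hUQ hU2) ?_
          have : 0 ≤ (k : ℝ) / (γ - 1) := div_nonneg (by linarith) (by linarith)
          linarith
  set B : ℝ := Ex (fun _ => p) (fun R => optC Com w (Q ∩ R)) with hB
  have hB0 : 0 ≤ B := Ex_nonneg hrate fun R => opt_nonneg hC0 _
  -- the weights of the blocks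
  have hsumK : ∑ β ∈ I, ∑ t ∈ Finset.range L, ∑ e ∈ SB β t, w e = ∑ e ∈ K, w e := by
    have h1 : ∀ β ∈ I, ∑ t ∈ Finset.range L, ∑ e ∈ SB β t, w e =
        ∑ e ∈ K.filter (fun e => b e = β), w e := by
      intro β _
      rw [← Finset.sum_biUnion]
      · refine Finset.sum_congr ?_ fun _ _ => rfl
        ext e
        constructor
        · intro he
          obtain ⟨-, h2, h3⟩ := hQB β e he
          exact Finset.mem_filter.2 ⟨h2, h3⟩
        · intro he
          obtain ⟨h2, h3⟩ := Finset.mem_filter.1 he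
          obtain ⟨t, ht, het⟩ := Finset.mem_biUnion.1 (hKQ h2)
          exact Finset.mem_biUnion.2 ⟨t, ht, (hSB β t e).2 ⟨het, h2, h3⟩⟩
      · intro s hs t ht hne
        exact (hSd s (Finset.mem_range.1 hs) t (Finset.mem_range.1 ht) hne).mono
          (hSBS β s) (hSBS β t)
    rw [Finset.sum_congr rfl h1]
    exact Finset.sum_fiberwise_of_maps_to (fun e he => Finset.mem_image_of_mem b he) w
  have hsumQ : (L : ℝ) * W ≤ ∑ e ∈ Q, w e := by
    have h1 : ∑ e ∈ Q, w e = ∑ t ∈ Finset.range L, ∑ e ∈ S t, w e :=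
      Finset.sum_biUnion fun s hs t ht hne =>
        hSd s (Finset.mem_range.1 hs) t (Finset.mem_range.1 ht) hne
    rw [h1]
    have h2 := Finset.sum_le_sum fun t (ht : t ∈ Finset.range L) => hWS t (Finset.mem_range.1 ht)
    rwa [Finset.sum_const, Finset.card_range, nsmul_eq_mul] at h2
  have hlow : c * ((1 - δ) * W) ≤ (1 + δ) * B := by
    have h1 : c * ((1 / (L : ℝ)) * ∑ e ∈ K, w e) ≤ (1 + δ) * B := by
      calc c * ((1 / (L : ℝ)) * ∑ e ∈ K, w e)
          = ∑ β ∈ I, c * ((1 / (L : ℝ)) * ∑ t ∈ Finset.range L, ∑ e ∈ SB β t, w e) := by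
            rw [← Finset.mul_sum, ← Finset.mul_sum, hsumK]
        _ ≤ ∑ β ∈ I, Ex (fun _ => p) (fun R => optC Com w (QB β ∩ R)) :=
            Finset.sum_le_sum hblock
        _ = Ex (fun _ => p) (fun R => ∑ β ∈ I, optC Com w (QB β ∩ R)) := by
            rw [Ex_sum]
        _ ≤ Ex (fun _ => p) (fun R => (1 + k / (γ - 1)) * optC Com w (Q ∩ R)) :=
            Ex_mono hrate hmerge
        _ = (1 + k / (γ - 1)) * B := by rw [Ex_mul_left]
        _ ≤ (1 + δ) * B := mul_le_mul_of_nonneg_right (by linarith) hB0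
    refine le_trans (mul_le_mul_of_nonneg_left ?_ hc0) h1
    have h2 : (1 - δ) * ((L : ℝ) * W) ≤ ∑ e ∈ K, w e := by
      refine le_trans ?_ hKw
      refine mul_le_mul (by linarith) hsumQ (by positivity) ?_
      have : (1 : ℝ) / m ≤ 1 := by linarith
      linarith
    have hL0 : (0 : ℝ) < L := by linarith
    calc (1 - δ) * W = (1 / (L : ℝ)) * ((1 - δ) * ((L : ℝ) * W)) := by field_simp
      _ ≤ (1 / (L : ℝ)) * ∑ e ∈ K, w e := mul_le_mul_of_nonneg_left h2 (by positivity)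
  refine ⟨Q, ?_, ?_⟩
  · refine Finset.card_biUnion_le.trans ?_
    refine (Finset.sum_le_sum fun t _ => le_csSup hbdd ⟨_, hKC (restF Kr t), rfl⟩).trans ?_
    rw [Finset.sum_const, Finset.card_range, smul_eq_mul]
  · have h1 : Ex (fun _ => p) (optC Com w) ≤ B + W := by
      refine (Ex_mono hrate hres).trans ?_
      rw [Ex_add, Ex_const]
    have hE0 : 0 ≤ Ex (fun _ => p) (optC Com w) := Ex_nonneg hrate fun R => opt_nonneg hC0 _
    have hden : (0 : ℝ) < 7 * k + 17 := by linarith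
    rcases le_total (1 - 5 * δ) 0 with hneg | hpos
    · refine le_trans ?_ hB0
      exact mul_nonpos_of_nonpos_of_nonneg
        (mul_nonpos_of_nonpos_of_nonneg hneg (by positivity)) hE0
    -- `(1 - 5 δ) W ≤ ((7 k + 7) / 10) B`
    have h2 : (1 - 5 * δ) * W ≤ (7 * k + 7) / 10 * B := by
      have h3 : (1 - 5 * δ) * (1 + δ) ≤ (1 - δ) * (1 - δ) * (1 - 7 / 5 * δ) := by
        nlinarith [mul_pos hδ hδ, mul_pos (mul_pos hδ hδ) hδ]
      have h4 : c * (1 - δ) * ((7 * k + 7) / 10) = (1 - δ) * (1 - δ) * (1 - 7 / 5 * δ) := by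
        rw [hc]
        field_simp
        ring
      have h5 : (1 - 5 * δ) * (1 + δ) * W ≤ (1 + δ) * ((7 * k + 7) / 10 * B) := by
        calc (1 - 5 * δ) * (1 + δ) * W ≤ (c * (1 - δ) * ((7 * k + 7) / 10)) * W := by
              rw [h4]
              exact mul_le_mul_of_nonneg_right h3 hW0
          _ = (c * ((1 - δ) * W)) * ((7 * k + 7) / 10) := by ring
          _ ≤ ((1 + δ) * B) * ((7 * k + 7) / 10) :=
              mul_le_mul_of_nonneg_right hlow (by positivity)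
          _ = (1 + δ) * ((7 * k + 7) / 10 * B) := by ring
      have h6 : (1 + δ) * ((1 - 5 * δ) * W) ≤ (1 + δ) * ((7 * k + 7) / 10 * B) := by
        calc (1 + δ) * ((1 - 5 * δ) * W) = (1 - 5 * δ) * (1 + δ) * W := by ring
          _ ≤ _ := h5
      exact le_of_mul_le_mul_left h6 (by linarith)
    calc (1 - 5 * δ) * (10 / (7 * k + 17)) * Ex (fun _ => p) (optC Com w)
        ≤ (1 - 5 * δ) * (10 / (7 * k + 17)) * (B + W) :=
          mul_le_mul_of_nonneg_left h1 (by positivity)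
      _ = 10 / (7 * k + 17) * ((1 - 5 * δ) * B + (1 - 5 * δ) * W) := by ring
      _ ≤ 10 / (7 * k + 17) * (B + (7 * k + 7) / 10 * B) := by
          refine mul_le_mul_of_nonneg_left ?_ (by positivity)
          have : (1 - 5 * δ) * B ≤ 1 * B := mul_le_mul_of_nonneg_right (by linarith) hB0
          linarith
      _ = B := by field_simp; ring

/-- The second condition on `L` follows from the first. -/
theorem hLp_of {p δ Γ : ℝ} {L : ℕ} (hL : 1 ≤ L) (hp : 0 < p) (hp1 : p ≤ 1) (hδ : 0 < δ)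
    (hδ1 : δ ≤ 1 / 2) (hΓ : 1 ≤ Γ)
    (hLd : (1000000 * Γ ^ 2 / δ ^ 2) * L * Real.exp (-(p ^ 2 * L * (δ / (8 * Γ)))) ≤ 1) :
    4 * Γ ≤ p * L := by
  have hLR : (1 : ℝ) ≤ L := by exact_mod_cast hL
  have hK : (1000000 : ℝ) ≤ 1000000 * Γ ^ 2 / δ ^ 2 := by
    rw [le_div_iff₀ (by positivity)]
    have h1 : δ ^ 2 ≤ 1 := pow_le_one₀ hδ.le (by linarith)
    have h2 : 1 ≤ Γ ^ 2 := one_le_pow₀ hΓ
    linarith
  set x : ℝ := p ^ 2 * L * (δ / (8 * Γ)) with hx
  have hx1 : 1 ≤ x := by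
    by_contra hlt
    push Not at hlt
    have h1 : Real.exp x ≤ 2.7182818286 :=
      (Real.exp_le_exp.2 hlt.le).trans Real.exp_one_lt_d9.le
    have h2 : (1000000 : ℝ) ≤ (1000000 * Γ ^ 2 / δ ^ 2) * L := by nlinarith
    have h3 : (1000000 : ℝ) * Real.exp (-x) ≤ 1 :=
      (mul_le_mul_of_nonneg_right h2 (Real.exp_pos _).le).trans hLd
    have h4 : Real.exp (-x) * Real.exp x = 1 := by
      rw [← Real.exp_add, neg_add_cancel, Real.exp_zero]
    nlinarith [Real.exp_pos x, Real.exp_pos (-x)]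
  have h5 : x ≤ p * L * (δ / (8 * Γ)) := by
    rw [hx]
    refine mul_le_mul_of_nonneg_right ?_ (by positivity)
    refine mul_le_mul_of_nonneg_right ?_ (by positivity)
    nlinarith
  have h6 : 1 * (8 * Γ) ≤ p * L * δ := by
    have h7 : 1 ≤ p * L * (δ / (8 * Γ)) := hx1.trans h5
    rw [← mul_div_assoc, le_div_iff₀ (by positivity)] at h7
    exact h7
  have h8 : 0 ≤ p * (L : ℝ) := by positivity
  nlinarith

/-- **All weights**: arbitrary matroids, any rank, ratio `10 / (7 k + 17)`. -/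
theorem weighted_thm {k : ℕ} (hk : 1 ≤ k) {ε : ℝ} (hε : 0 < ε) : ∃ C : ℝ, 0 < C ∧
    ∀ (E : Type) [Fintype E] [DecidableEq E] (M : Fin k → Matroid E) (w : E → ℝ),
      (∀ e, 0 ≤ w e) → ∀ p : ℝ, 0 < p → p ≤ 1 →
      ∃ Q : Finset E, (Q.card : ℝ) ≤ C / p ^ 2 * (1 + Real.log (1 / p)) *
          ((sSup {n : ℕ | ∃ S : Finset E, (∀ i, (M i).Indep (S : Set E)) ∧
            n = S.card} : ℕ) : ℝ) ∧
        (1 - ε) * (10 / (7 * k + 17)) * Ex (fun _ => p)
            (optC (fun S : Finset E => ∀ i, (M i).Indep (S : Set E)) w) ≤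
          Ex (fun _ => p) (fun R =>
            optC (fun S : Finset E => ∀ i, (M i).Indep (S : Set E)) w (Q ∩ R)) := by
  classical
  set δ : ℝ := min ε 1 / 5 with hδdef
  have hε'0 : 0 < min ε 1 := lt_min hε one_pos
  have hε'1 : min ε 1 ≤ 1 := min_le_right _ _
  have hδ : 0 < δ := by rw [hδdef]; linarith
  have hδ1 : δ ≤ 1 / 2 := by rw [hδdef]; linarith
  have hkR : (1 : ℝ) ≤ k := by exact_mod_cast hk
  set γ : ℝ := 1 + k / δ with hγdef
  have hkδ : 0 < (k : ℝ) / δ := by positivity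
  have hγ : 1 < γ := by rw [hγdef]; linarith
  have hγδ : (k : ℝ) / (γ - 1) ≤ δ := by
    rw [hγdef, add_sub_cancel_left, div_div_eq_mul_div, mul_comm, mul_div_assoc,
      div_self (by positivity : (k : ℝ) ≠ 0), mul_one]
  set m : ℕ := max 2 ⌈1 / δ⌉₊ with hmdef
  have hm : 2 ≤ m := le_max_left _ _
  have hmδ : 1 / (m : ℝ) ≤ δ := by
    have h1 : 1 / δ ≤ (m : ℝ) := (Nat.le_ceil (1 / δ)).trans (by
      exact_mod_cast le_max_right 2 ⌈1 / δ⌉₊)
    rw [div_le_iff₀ hδ] at h1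
    rw [div_le_iff₀ (by positivity)]
    linarith
  have hΓ : 1 ≤ γ ^ m := one_le_pow₀ hγ.le
  have hK : (1 : ℝ) ≤ 1000000 * (γ ^ m) ^ 2 / δ ^ 2 := by
    rw [le_div_iff₀ (by positivity)]
    have h1 : δ ^ 2 ≤ 1 := pow_le_one₀ hδ.le (by linarith)
    have h2 : 1 ≤ (γ ^ m) ^ 2 := one_le_pow₀ hΓ
    linarith
  have hβ : 0 < δ / (8 * γ ^ m) := by positivity
  obtain ⟨A, hA, hAL⟩ := numbers_gen hK hβ
  refine ⟨A, hA, ?_⟩
  intro E _ _ M w hw p hp hp1
  have hrate : IsRate (fun _ : E => p) := fun _ => ⟨hp.le, hp1⟩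
  obtain ⟨L, hL1, hL2, hL3⟩ := hAL p hp hp1
  let N : Fin k → Matroid E := fun i => (M i).restrict Set.univ
  have hN : ∀ (i : Fin k) (S : Set E), (N i).Indep S ↔ (M i).Indep S := by
    intro i S
    simp [N, Matroid.restrict_indep_iff]
  obtain ⟨Q, hQ1, hQ2⟩ := main_w hk N (fun i => by simp [N]) hL1 w hw hp hp1 hδ hδ1 hγ hm hγδ
    hmδ hL2 (hLp_of hL1 hp hp1 hδ hδ1 hΓ hL2)
  simp only [hN] at hQ1 hQ2
  refine ⟨Q, ?_, ?_⟩
  · calc (Q.card : ℝ) ≤ ((L * sSup {n : ℕ | ∃ S : Finset E, (∀ i, (M i).Indep (S : Set E)) ∧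
            n = S.card} : ℕ) : ℝ) := by exact_mod_cast hQ1
      _ = (L : ℝ) * ((sSup {n : ℕ | ∃ S : Finset E, (∀ i, (M i).Indep (S : Set E)) ∧
            n = S.card} : ℕ) : ℝ) := by push_cast; ring
      _ ≤ _ := mul_le_mul_of_nonneg_right hL3 (Nat.cast_nonneg _)
  · refine le_trans (mul_le_mul_of_nonneg_right ?_ ?_) hQ2
    · refine mul_le_mul_of_nonneg_right ?_ (by positivity)
      have h1 : min ε 1 ≤ ε := min_le_left _ _
      have h2 : min ε 1 = 5 * δ := by rw [hδdef]; ring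
      linarith
    · exact Ex_nonneg hrate fun S => opt_nonneg (fun i => by simp) S

end Pool.Agent.Helper39.SW
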